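import Mathlib

set_option autoImplicit false
open Finset

namespace Pool.Agent.Helper93.F5

/-- A finite multigraph inside fixed types: vertices `A`, edges `D`, and the set of ends of an edge. -/
structure Gr (V E : Type) where
  A : Finset V
  D : Finset E
  inc : E → Finset V

variable {V E : Type} [DecidableEq V] [DecidableEq E]

namespace Gr

def cut (G : Gr V E) (X : Finset V) : Finset E := G.D.filter (fun e => (G.inc e ∩ X).card = 1)

structure Cubic (G : Gr V E) : Prop where
  two : ∀ e ∈ G.D, (G.inc e).card = 2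
  sub : ∀ e ∈ G.D, G.inc e ⊆ G.A
  deg : ∀ v ∈ G.A, (G.D.filter (fun e => v ∈ G.inc e)).card = 3
  bridge : ∀ X ⊆ G.A, (G.cut X).card ≠ 1

def EvenSet (G : Gr V E) (K : Finset E) : Prop :=
  K ⊆ G.D ∧ ∀ v ∈ G.A, Even (K.filter (fun e => v ∈ G.inc e)).card

def PM (G : Gr V E) (M : Finset E) : Prop :=
  M ⊆ G.D ∧ ∀ v ∈ G.A, (M.filter (fun e => v ∈ G.inc e)).card = 1

def Pack (G : Gr V E) (F : Finset E) : Prop :=
  ∃ k : V → Fin 6, (∀ e ∈ F, ∀ x ∈ G.inc e, ∀ y ∈ G.inc e, k x = k y) ∧
    ∀ i : Fin 6, i ≠ 5 → Odd (G.A.filter (fun v => k v = i)).card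

def Good (G : Gr V E) (F M : Finset E) : Prop :=
  ∀ Y ⊆ G.A, G.cut Y ⊆ M \ F → Even Y.card

end Gr

open Gr

theorem other_end {s : Finset V} {x : V} (hx : x ∈ s) (h : s.card = 2) :
    ∃ y, x ≠ y ∧ s = {x, y} := by
  obtain ⟨a, b, hab, rfl⟩ := Finset.card_eq_two.mp h
  simp only [Finset.mem_insert, Finset.mem_singleton] at hx
  rcases hx with rfl | rfl
  · exact ⟨b, hab, rfl⟩
  · exact ⟨a, hab.symm, Finset.pair_comm _ _⟩

theorem three_of_mem {α : Type} [DecidableEq α] {s : Finset α} {x : α} (hx : x ∈ s) (h : s.card = 3) :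
    ∃ y z, x ≠ y ∧ x ≠ z ∧ y ≠ z ∧ s = {x, y, z} := by
  have h2 : (s.erase x).card = 2 := by rw [Finset.card_erase_of_mem hx, h]
  obtain ⟨a, b, hab, hs⟩ := Finset.card_eq_two.mp h2
  have ha : a ∈ s.erase x := by rw [hs]; simp
  have hb : b ∈ s.erase x := by rw [hs]; simp
  refine ⟨a, b, (Finset.ne_of_mem_erase ha).symm, (Finset.ne_of_mem_erase hb).symm, hab, ?_⟩
  rw [← Finset.insert_erase hx, hs]

theorem three_of_mem_mem {α : Type} [DecidableEq α] {s : Finset α} {x y : α} (hx : x ∈ s)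
    (hy : y ∈ s) (hxy : x ≠ y) (h : s.card = 3) :
    ∃ z, x ≠ z ∧ y ≠ z ∧ s = {x, y, z} := by
  obtain ⟨a, b, h1, h2, h3, rfl⟩ := three_of_mem hx h
  simp only [Finset.mem_insert, Finset.mem_singleton] at hy
  rcases hy with rfl | rfl | rfl
  · exact absurd rfl hxy
  · exact ⟨b, h2, h3, rfl⟩
  · refine ⟨a, h1, h3.symm, ?_⟩
    rw [Finset.pair_comm]

theorem inter_pair_card {x y : V} (hxy : x ≠ y) (X : Finset V) :
    (({x, y} : Finset V) ∩ X).card = 1 ↔ ¬ (x ∈ X ↔ y ∈ X) := by
  by_cases hx : x ∈ X <;> by_cases hy : y ∈ X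
  · have : ({x, y} : Finset V) ∩ X = {x, y} := by
      apply Finset.inter_eq_left.mpr
      intro z hz
      simp only [Finset.mem_insert, Finset.mem_singleton] at hz
      rcases hz with rfl | rfl <;> assumption
    rw [this, Finset.card_pair hxy]; simp [hx, hy]
  · have : ({x, y} : Finset V) ∩ X = {x} := by
      ext z; simp only [Finset.mem_inter, Finset.mem_insert, Finset.mem_singleton]
      constructor
      · rintro ⟨rfl | rfl, h⟩
        · rfl
        · exact absurd h hy
      · rintro rfl; exact ⟨Or.inl rfl, hx⟩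
    rw [this]; simp [hx, hy]
  · have : ({x, y} : Finset V) ∩ X = {y} := by
      ext z; simp only [Finset.mem_inter, Finset.mem_insert, Finset.mem_singleton]
      constructor
      · rintro ⟨rfl | rfl, h⟩
        · exact absurd h hx
        · rfl
      · rintro rfl; exact ⟨Or.inr rfl, hy⟩
    rw [this]; simp [hx, hy]
  · have : ({x, y} : Finset V) ∩ X = ∅ := by
      ext z; simp only [Finset.mem_inter, Finset.mem_insert, Finset.mem_singleton,
        Finset.notMem_empty, iff_false, not_and]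
      rintro (rfl | rfl)
      · exact hx
      · exact hy
    rw [this]; simp [hx, hy]

theorem mem_cut {G : Gr V E} {X : Finset V} {e : E} {x y : V} (hxy : x ≠ y)
    (he : G.inc e = {x, y}) : e ∈ G.cut X ↔ e ∈ G.D ∧ ¬ (x ∈ X ↔ y ∈ X) := by
  unfold Gr.cut
  rw [Finset.mem_filter, he, inter_pair_card hxy]

theorem cut_sub (G : Gr V E) (X : Finset V) : G.cut X ⊆ G.D := Finset.filter_subset _ _

/-- double counting -/
theorem parity {G : Gr V E} (hG : G.Cubic) {K : Finset E} (hK : K ⊆ G.D) (X : Finset V) :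
    (∑ v ∈ X, (K.filter (fun e => v ∈ G.inc e)).card) % 2 = (K ∩ G.cut X).card % 2 := by
  have h1 : ∑ v ∈ X, (K.filter (fun e => v ∈ G.inc e)).card = ∑ e ∈ K, (G.inc e ∩ X).card := by
    have := Finset.sum_card_bipartiteAbove_eq_sum_card_bipartiteBelow (s := X) (t := K)
      (fun v e => v ∈ G.inc e)
    unfold Finset.bipartiteAbove Finset.bipartiteBelow at this
    rw [this]
    apply Finset.sum_congr rfl
    intro e _
    congr 1
    ext v
    simp [and_comm]
  have h2 : (K ∩ G.cut X).card = ∑ e ∈ K, (if (G.inc e ∩ X).card = 1 then 1 else 0) := by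
    rw [← Finset.card_filter]
    congr 1
    ext e
    simp only [Finset.mem_inter, Gr.cut, Finset.mem_filter]
    constructor
    · rintro ⟨h, _, h'⟩; exact ⟨h, h'⟩
    · rintro ⟨h, h'⟩; exact ⟨h, hK h, h'⟩
  rw [h1, h2, Finset.sum_nat_mod, Finset.sum_nat_mod K 2 (fun e => if (G.inc e ∩ X).card = 1 then 1 else 0)]
  congr 1
  apply Finset.sum_congr rfl
  intro e he
  have h3 : (G.inc e ∩ X).card ≤ 2 := by
    rw [← hG.two e (hK he)]; exact Finset.card_le_card Finset.inter_subset_left
  have : (G.inc e ∩ X).card = 0 ∨ (G.inc e ∩ X).card = 1 ∨ (G.inc e ∩ X).card = 2 := by omega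
  rcases this with h | h | h <;> simp [h]

theorem EvenSet.cut_even {G : Gr V E} (hG : G.Cubic) {K : Finset E} (hK : G.EvenSet K)
    {X : Finset V} (hX : X ⊆ G.A) : Even (K ∩ G.cut X).card := by
  have h := parity hG hK.1 X
  have h2 : Even (∑ v ∈ X, (K.filter (fun e => v ∈ G.inc e)).card) := by
    apply Finset.even_sum
    intro v hv
    exact hK.2 v (hX hv)
  rw [Nat.even_iff] at h2 ⊢
  omega

theorem cut_parity {G : Gr V E} (hG : G.Cubic) {X : Finset V} (hX : X ⊆ G.A) :
    (G.cut X).card % 2 = X.card % 2 := by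
  have h := parity hG (Finset.Subset.refl G.D) X
  rw [Finset.inter_eq_right.mpr (cut_sub G X)] at h
  have h2 : ∑ v ∈ X, (G.D.filter (fun e => v ∈ G.inc e)).card = ∑ v ∈ X, 3 := by
    apply Finset.sum_congr rfl
    intro v hv
    exact hG.deg v (hX hv)
  rw [h2, Finset.sum_const, smul_eq_mul] at h
  omega

theorem PM.compl_even {G : Gr V E} (hG : G.Cubic) {M : Finset E} (hM : G.PM M) :
    G.EvenSet (G.D \ M) := by
  refine ⟨Finset.sdiff_subset, ?_⟩
  intro v hv
  have h1 : (G.D \ M).filter (fun e => v ∈ G.inc e)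
      = G.D.filter (fun e => v ∈ G.inc e) \ M.filter (fun e => v ∈ G.inc e) := by
    ext e
    simp only [Finset.mem_filter, Finset.mem_sdiff]
    tauto
  rw [h1, Finset.card_sdiff_of_subset (Finset.filter_subset_filter _ hM.1), hG.deg v hv, hM.2 v hv]
  exact ⟨1, rfl⟩

theorem cut_all {G : Gr V E} (hG : G.Cubic) : G.cut G.A = ∅ := by
  apply Finset.filter_eq_empty_iff.mpr
  intro e he
  rw [Finset.inter_eq_left.mpr (hG.sub e he), hG.two e he]
  norm_num

theorem even_card {G : Gr V E} (hG : G.Cubic) : Even G.A.card := by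
  have h := cut_parity hG (Finset.Subset.refl G.A)
  rw [cut_all hG] at h
  rw [Nat.even_iff]
  simpa using h.symm

theorem ends {G : Gr V E} (hG : G.Cubic) {e : E} (he : e ∈ G.D) :
    ∃ x y, x ≠ y ∧ G.inc e = {x, y} ∧ x ∈ G.A ∧ y ∈ G.A := by
  obtain ⟨x, y, hxy, h⟩ := Finset.card_eq_two.mp (hG.two e he)
  have hs := hG.sub e he
  rw [h] at hs
  exact ⟨x, y, hxy, h, hs (by simp), hs (by simp)⟩

theorem cut_compl {G : Gr V E} (hG : G.Cubic) (X : Finset V) : G.cut (G.A \ X) = G.cut X := by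
  ext e
  by_cases he : e ∈ G.D
  · obtain ⟨x, y, hxy, h, hx, hy⟩ := ends hG he
    rw [mem_cut hxy h, mem_cut hxy h]
    simp only [Finset.mem_sdiff, hx, hy, true_and]
    tauto
  · constructor
    · intro h; exact absurd (cut_sub _ _ h) he
    · intro h; exact absurd (cut_sub _ _ h) he

theorem cut_singleton {G : Gr V E} (hG : G.Cubic) {v : V} :
    G.cut {v} = G.D.filter (fun e => v ∈ G.inc e) := by
  ext e
  by_cases he : e ∈ G.D
  · obtain ⟨x, y, hxy, h, hx, hy⟩ := ends hG he
    rw [mem_cut hxy h]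
    simp only [Finset.mem_filter, he, h, true_and, Finset.mem_insert, Finset.mem_singleton]
    constructor
    · intro h1
      by_contra h2
      push Not at h2
      exact h1 (iff_of_false (Ne.symm h2.1) (Ne.symm h2.2))
    · rintro (rfl | rfl)
      · intro h1; exact hxy (h1.mp rfl).symm
      · intro h1; exact hxy (h1.mpr rfl)
  · constructor
    · intro h; exact absurd (cut_sub _ _ h) he
    · intro h; exact absurd (Finset.mem_filter.mp h).1 he

/-- it suffices to be good for sets avoiding a given vertex -/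
theorem good_of_avoid {G : Gr V E} (hG : G.Cubic) {F M : Finset E} (w : V)
    (h : ∀ Y ⊆ G.A, w ∉ Y → G.cut Y ⊆ M \ F → Even Y.card) : G.Good F M := by
  intro Y hY hc
  by_cases hw : w ∈ Y
  · have h1 := h (G.A \ Y) Finset.sdiff_subset (by simp [hw]) (by rwa [cut_compl hG])
    rw [Finset.card_sdiff_of_subset hY] at h1
    have h2 := even_card hG
    have h3 := Finset.card_le_card hY
    rw [Nat.even_iff] at *
    omega
  · exact h Y hY hw hc

end Pool.Agent.Helper93.F5
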