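import Pool.Agent.Helper93.F5.Basic

set_option autoImplicit false
open Finset

namespace Pool.Agent.Helper93.F5

variable {V E : Type} [DecidableEq V] [DecidableEq E]

open Gr

/-- contract the complement of `X` to the vertex `z` -/
def Gr.contract (G : Gr V E) (X : Finset V) (z : V) : Gr V E where
  A := insert z X
  D := G.D.filter (fun e => (G.inc e ∩ X).Nonempty)
  inc := fun e => (G.inc e).image (fun v => if v ∈ X then v else z)

def phi (X : Finset V) (z v : V) : V := if v ∈ X then v else z

theorem contract_inc {G : Gr V E} {X : Finset V} {z : V} {e : E} {x y : V}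
    (h : G.inc e = {x, y}) : (G.contract X z).inc e = {phi X z x, phi X z y} := by
  simp [Gr.contract, phi, h, Finset.image_insert]

theorem mem_contract_D {G : Gr V E} {X : Finset V} {z : V} {e : E} {x y : V}
    (h : G.inc e = {x, y}) : e ∈ (G.contract X z).D ↔ e ∈ G.D ∧ (x ∈ X ∨ y ∈ X) := by
  simp only [Gr.contract, Finset.mem_filter, h]
  constructor
  · rintro ⟨h1, w, hw⟩
    refine ⟨h1, ?_⟩
    simp only [Finset.mem_inter, Finset.mem_insert, Finset.mem_singleton] at hw
    rcases hw with ⟨rfl | rfl, h2⟩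
    · exact Or.inl h2
    · exact Or.inr h2
  · rintro ⟨h1, h2⟩
    refine ⟨h1, ?_⟩
    rcases h2 with h2 | h2
    · exact ⟨x, by simp [h2]⟩
    · exact ⟨y, by simp [h2]⟩

theorem phi_ne {X : Finset V} {z x y : V} (hz : z ∉ X) (hxy : x ≠ y) (h : x ∈ X ∨ y ∈ X) :
    phi X z x ≠ phi X z y := by
  unfold phi
  by_cases hx : x ∈ X <;> by_cases hy : y ∈ X
  · simpa [hx, hy] using hxy
  · simp only [hx, hy, if_true, if_false]; rintro rfl; exact hz hx
  · simp only [hx, hy, if_true, if_false]; rintro rfl; exact hz hy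
  · tauto

theorem cut_contract {G : Gr V E} (hG : G.Cubic) {X : Finset V} {z : V} (hz : z ∉ X)
    (Y : Finset V) :
    (G.contract X z).cut Y = G.cut (G.A.filter (fun v => phi X z v ∈ Y)) := by
  ext e
  by_cases he : e ∈ G.D
  · obtain ⟨x, y, hxy, h, hx, hy⟩ := ends hG he
    rw [mem_cut hxy h]
    simp only [Finset.mem_filter, hx, hy, he, true_and]
    by_cases h3 : x ∈ X ∨ y ∈ X
    · rw [mem_cut (phi_ne hz hxy h3) (contract_inc h), mem_contract_D h]
      simp [he, h3]
    · constructor
      · intro h4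
        exact absurd ((mem_contract_D h).mp (cut_sub _ _ h4)).2 h3
      · intro h4
        exfalso
        apply h4
        push Not at h3
        simp [phi, h3.1, h3.2]
  · constructor
    · intro h; exact absurd (Finset.mem_filter.mp (cut_sub _ _ h)).1 he
    · intro h; exact absurd (cut_sub _ _ h) he

theorem contract_cut_sub {G : Gr V E} (hG : G.Cubic) {X : Finset V} {z : V} (hX : X ⊆ G.A)
    (hz : z ∉ X) {Y : Finset V} (hY : Y ⊆ X) : (G.contract X z).cut Y = G.cut Y := by
  rw [cut_contract hG hz]
  congr 1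
  ext v
  simp only [Finset.mem_filter, phi]
  constructor
  · rintro ⟨h1, h2⟩
    by_cases hv : v ∈ X
    · simpa [hv] using h2
    · simp only [hv, if_false] at h2
      exact absurd (hY h2) hz
  · intro h
    refine ⟨hX (hY h), ?_⟩
    simp [hY h, h]

theorem contract_mem_inc {G : Gr V E} {X : Finset V} {z v : V} (hz : z ∉ X) (hv : v ∈ X)
    (e : E) : v ∈ (G.contract X z).inc e ↔ v ∈ G.inc e := by
  simp only [Gr.contract, Finset.mem_image]
  constructor
  · rintro ⟨w, hw, h⟩
    by_cases hwX : w ∈ X
    · simp only [hwX, if_true] at h; rwa [← h]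
    · simp only [hwX, if_false] at h; rw [h] at hz; exact absurd hv hz
  · intro h
    exact ⟨v, h, by simp [hv]⟩

theorem contract_deg {G : Gr V E} {X : Finset V} {z v : V} (hz : z ∉ X) (hv : v ∈ X)
    {K : Finset E} (hK : K ⊆ G.D) :
    (K ∩ (G.contract X z).D).filter (fun e => v ∈ (G.contract X z).inc e)
      = K.filter (fun e => v ∈ G.inc e) := by
  ext e
  simp only [Finset.mem_filter, Finset.mem_inter, contract_mem_inc hz hv]
  constructor
  · rintro ⟨⟨h1, _⟩, h2⟩; exact ⟨h1, h2⟩
  · rintro ⟨h1, h2⟩
    refine ⟨⟨h1, ?_⟩, h2⟩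
    simp only [Gr.contract, Finset.mem_filter]
    exact ⟨hK h1, v, by simp [h2, hv]⟩

theorem contract_deg_z {G : Gr V E} (hG : G.Cubic) {X : Finset V} {z : V} (hz : z ∉ X)
    {K : Finset E} (hK : K ⊆ G.D) :
    (K ∩ (G.contract X z).D).filter (fun e => z ∈ (G.contract X z).inc e) = K ∩ G.cut X := by
  ext e
  simp only [Finset.mem_filter, Finset.mem_inter]
  by_cases he : e ∈ G.D
  · obtain ⟨x, y, hxy, h, hx, hy⟩ := ends hG he
    rw [mem_contract_D h, mem_cut hxy h, contract_inc h]
    simp only [he, true_and, phi, Finset.mem_insert, Finset.mem_singleton]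
    by_cases hx' : x ∈ X <;> by_cases hy' : y ∈ X
    · simp only [hx', hy', true_or, and_true, if_true]
      constructor
      · rintro ⟨_, rfl | rfl⟩ <;> exact absurd (by assumption) hz
      · rintro ⟨_, h⟩; simp at h
    · simp [hx', hy']
    · simp [hx', hy']
    · simp [hx', hy']
  · constructor
    · rintro ⟨⟨h, _⟩, _⟩; exact absurd (hK h) he
    · rintro ⟨h, _⟩; exact absurd (hK h) he

/-- the contracted graph is cubic and bridgeless -/
theorem contract_cubic {G : Gr V E} (hG : G.Cubic) {X : Finset V} {z : V} (hX : X ⊆ G.A)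
    (hz : z ∉ X) (h3 : (G.cut X).card = 3) : (G.contract X z).Cubic := by
  refine ⟨?_, ?_, ?_, ?_⟩
  · intro e he
    have heD : e ∈ G.D := (Finset.mem_filter.mp he).1
    obtain ⟨x, y, hxy, h, hx, hy⟩ := ends hG heD
    rw [contract_inc h]
    exact Finset.card_pair (phi_ne hz hxy ((mem_contract_D h).mp he).2)
  · intro e he w hw
    simp only [Gr.contract, Finset.mem_image] at hw
    obtain ⟨v, hv, rfl⟩ := hw
    simp only [Gr.contract, Finset.mem_insert]
    by_cases hvX : v ∈ X
    · simp [hvX]
    · simp [hvX]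
  · intro v hv
    simp only [Gr.contract, Finset.mem_insert] at hv
    have hsub : G.D ∩ (G.contract X z).D = (G.contract X z).D :=
      Finset.inter_eq_right.mpr (Finset.filter_subset _ _)
    rcases hv with rfl | hv
    · have := contract_deg_z hG (X := X) hz (Finset.Subset.refl G.D)
      rw [hsub] at this
      rw [this, Finset.inter_eq_right.mpr (cut_sub G X), h3]
    · have := contract_deg (G := G) (z := z) hz hv (Finset.Subset.refl G.D)
      rw [hsub] at this
      rw [this, hG.deg v (hX hv)]
  · intro Y _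
    rw [cut_contract hG hz]
    exact hG.bridge _ (Finset.filter_subset _ _)

theorem contract_even {G : Gr V E} (hG : G.Cubic) {X : Finset V} {z : V} (hX : X ⊆ G.A)
    (hz : z ∉ X) {F : Finset E} (hF : G.EvenSet F) :
    (G.contract X z).EvenSet (F ∩ (G.contract X z).D) := by
  refine ⟨Finset.inter_subset_right, ?_⟩
  intro v hv
  simp only [Gr.contract, Finset.mem_insert] at hv
  rcases hv with rfl | hv
  · rw [contract_deg_z hG hz hF.1]
    exact EvenSet.cut_even hG hF hX
  · rw [contract_deg hz hv hF.1]
    exact hF.2 v (hX hv)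

theorem contract_pack {G : Gr V E} (hG : G.Cubic) {X : Finset V} {z : V} (hX : X ⊆ G.A)
    (hz : z ∉ X) (hodd : Odd (G.A \ X).card) {F : Finset E} (hF : F ⊆ G.D)
    (h : (G.contract X z).Pack (F ∩ (G.contract X z).D)) : G.Pack F := by
  obtain ⟨k, h1, h2⟩ := h
  refine ⟨fun v => k (phi X z v), ?_, ?_⟩
  · intro e he x hx y hy
    by_cases hD : e ∈ (G.contract X z).D
    · apply h1 e (Finset.mem_inter.mpr ⟨he, hD⟩)
      · simp only [Gr.contract, Finset.mem_image]; exact ⟨x, hx, rfl⟩
      · simp only [Gr.contract, Finset.mem_image]; exact ⟨y, hy, rfl⟩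
    · have : ∀ w ∈ G.inc e, w ∉ X := by
        intro w hw hwX
        apply hD
        simp only [Gr.contract, Finset.mem_filter]
        exact ⟨hF he, w, by simp [hw, hwX]⟩
      simp [phi, this x hx, this y hy]
  · intro i hi
    have h3 := h2 i hi
    have h4 : (G.A.filter (fun v => k (phi X z v) = i)).card
        = (X.filter (fun v => k v = i)).card + ((G.A \ X).filter (fun _ => k z = i)).card := by
      rw [← Finset.card_union_of_disjoint]
      · congr 1
        ext v
        simp only [Finset.mem_filter, Finset.mem_union, Finset.mem_sdiff, phi]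
        by_cases hv : v ∈ X
        · simp [hv, hX hv]
        · simp [hv]
      · rw [Finset.disjoint_left]
        intro v h5 h6
        simp only [Finset.mem_filter, Finset.mem_sdiff] at h5 h6
        exact h6.1.2 h5.1
    have h5 : ((G.contract X z).A.filter (fun v => k v = i)).card
        = (X.filter (fun v => k v = i)).card + (if k z = i then 1 else 0) := by
      simp only [Gr.contract]
      rw [Finset.filter_insert]
      by_cases hk : k z = i
      · simp only [hk, if_true]
        rw [Finset.card_insert_of_notMem]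
        simp [hz]
      · simp [hk]
    rw [h5] at h3
    rw [h4]
    by_cases hk : k z = i
    · simp only [hk, if_true] at h3 ⊢
      rw [Finset.filter_true_of_mem (fun _ _ => trivial)]
      rw [Nat.odd_iff] at *
      omega
    · simp only [hk, if_false] at h3 ⊢
      simpa using h3

/-- one side of the gluing -/
theorem side {G : Gr V E} (hG : G.Cubic) {X Y : Finset V} (hX : X ⊆ G.A) (hY : Y ⊆ G.A)
    (h3 : (G.cut X).card = 3) {F M : Finset E} (hF : G.EvenSet F) (hM : G.PM M) {g a : E}
    (hg : M ∩ G.cut X = {g}) (hYc : G.cut Y ⊆ M \ F) (haX : a ∈ G.cut X) (hag : a ≠ g)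
    (haY : Disjoint (G.inc a) Y) : G.cut (Y ∩ X) ⊆ M \ F := by
  have hgX : g ∈ G.cut X := by
    have : g ∈ M ∩ G.cut X := by rw [hg]; simp
    exact (Finset.mem_inter.mp this).2
  obtain ⟨b, hab, hgb, hc⟩ := three_of_mem_mem haX hgX hag h3
  have hYX : Y ∩ X ⊆ G.A := Finset.inter_subset_left.trans hY
  have hor : ∀ e ∈ G.cut (Y ∩ X), e ∈ G.cut Y ∨ e ∈ G.cut X := by
    intro e he
    have heD := cut_sub _ _ he
    obtain ⟨x, y, hxy, h, hx, hy⟩ := ends hG heD
    rw [mem_cut hxy h] at he ⊢
    rw [mem_cut hxy h]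
    simp only [Finset.mem_inter] at he
    tauto
  have ha : a ∉ G.cut (Y ∩ X) := by
    intro he
    have heD := cut_sub _ _ he
    obtain ⟨x, y, hxy, h, hx, hy⟩ := ends hG heD
    rw [mem_cut hxy h] at he
    rw [h] at haY
    simp only [Finset.disjoint_insert_left, Finset.disjoint_singleton_left] at haY
    simp only [Finset.mem_inter] at he
    tauto
  have hM1 : G.cut (Y ∩ X) ⊆ M := by
    have hev := EvenSet.cut_even hG (PM.compl_even hG hM) hYX
    have hsub : (G.D \ M) ∩ G.cut (Y ∩ X) ⊆ {b} := by
      intro e he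
      simp only [Finset.mem_inter, Finset.mem_sdiff] at he
      rcases hor e he.2 with h | h
      · exact absurd (Finset.mem_sdiff.mp (hYc h)).1 he.1.2
      · rw [hc] at h
        simp only [Finset.mem_insert, Finset.mem_singleton] at h ⊢
        rcases h with rfl | rfl | rfl
        · exact absurd he.2 ha
        · exfalso
          have : e ∈ M ∩ G.cut X := by rw [hg]; simp
          exact he.1.2 (Finset.mem_inter.mp this).1
        · rfl
    have hle := Finset.card_le_card hsub
    rw [Finset.card_singleton] at hle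
    have h0 : ((G.D \ M) ∩ G.cut (Y ∩ X)).card = 0 := by
      rw [Nat.even_iff] at hev; omega
    rw [Finset.card_eq_zero] at h0
    intro e he
    by_contra hn
    have : e ∈ (G.D \ M) ∩ G.cut (Y ∩ X) :=
      Finset.mem_inter.mpr ⟨Finset.mem_sdiff.mpr ⟨cut_sub _ _ he, hn⟩, he⟩
    rw [h0] at this
    exact absurd this (Finset.notMem_empty _)
  have hev := EvenSet.cut_even hG hF hYX
  have hsub : F ∩ G.cut (Y ∩ X) ⊆ {g} := by
    intro e he
    have he' := Finset.mem_inter.mp he
    rcases hor e he'.2 with h | h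
    · exact absurd he'.1 (Finset.mem_sdiff.mp (hYc h)).2
    · rw [← hg]
      exact Finset.mem_inter.mpr ⟨hM1 he'.2, h⟩
  have hle := Finset.card_le_card hsub
  rw [Finset.card_singleton] at hle
  have h0 : (F ∩ G.cut (Y ∩ X)).card = 0 := by
    rw [Nat.even_iff] at hev; omega
  rw [Finset.card_eq_zero] at h0
  intro e he
  refine Finset.mem_sdiff.mpr ⟨hM1 he, ?_⟩
  intro hn
  have : e ∈ F ∩ G.cut (Y ∩ X) := Finset.mem_inter.mpr ⟨hn, he⟩
  rw [h0] at this
  exact absurd this (Finset.notMem_empty _)

end Pool.Agent.Helper93.F5
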