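import Pool.Agent.Helper93.F5.Induct

set_option autoImplicit false
open Finset

namespace Pool.Agent.Helper93.F5

section
variable {V E : Type} [Fintype V] [DecidableEq V] [Fintype E] [DecidableEq E]

/-- the whole multigraph in the internal language -/
def toGr (s t : E → V) : Gr V E := ⟨univ, univ, fun e => {s e, t e}⟩

theorem mem_inc {s t : E → V} {e : E} {v : V} :
    v ∈ (toGr s t).inc e ↔ (s e = v ∨ t e = v) := by
  simp only [toGr, Finset.mem_insert, Finset.mem_singleton]
  constructor
  · rintro (h | h)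
    · exact Or.inl h.symm
    · exact Or.inr h.symm
  · rintro (h | h)
    · exact Or.inl h.symm
    · exact Or.inr h.symm

theorem filter_inc {s t : E → V} (K : Finset E) (v : V) :
    K.filter (fun e => v ∈ (toGr s t).inc e) = K.filter (fun e => s e = v ∨ t e = v) := by
  apply Finset.filter_congr
  intro e _
  exact mem_inc

theorem toGr_cut {s t : E → V} (hl : ∀ e, s e ≠ t e) (X : Finset V) :
    (toGr s t).cut X = univ.filter (fun e : E => (s e ∈ X ∧ t e ∉ X) ∨ (s e ∉ X ∧ t e ∈ X)) := by
  ext e
  rw [mem_cut (hl e) rfl]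
  simp only [toGr, Finset.mem_filter, Finset.mem_univ, true_and]
  tauto

theorem toGr_cubic {s t : E → V} (hl : ∀ e, s e ≠ t e)
    (h3 : ∀ v : V, (univ.filter (fun e : E => s e = v ∨ t e = v)).card = 3)
    (hb : ∀ S : Finset V,
        (univ.filter (fun e : E => (s e ∈ S ∧ t e ∉ S) ∨ (s e ∉ S ∧ t e ∈ S))).card ≠ 1) :
    (toGr s t).Cubic := by
  refine ⟨?_, ?_, ?_, ?_⟩
  · intro e _
    exact Finset.card_pair (hl e)
  · intro e _ v _
    exact Finset.mem_univ _
  · intro v _
    show ((univ : Finset E).filter (fun e => v ∈ (toGr s t).inc e)).card = 3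
    rw [filter_inc]; exact h3 v
  · intro X _
    rw [toGr_cut hl]; exact hb X

/-- boundary pairing -/
theorem pairing {s t : E → V} (hl : ∀ e, s e ≠ t e) (P : E → ZMod 2) (c : V → ZMod 2) :
    ∑ v, c v * (∑ e ∈ univ.filter (fun e : E => s e = v ∨ t e = v), P e)
      = ∑ e, P e * (c (s e) + c (t e)) := by
  have h1 : ∀ v, c v * (∑ e ∈ univ.filter (fun e : E => s e = v ∨ t e = v), P e)
      = ∑ e, (if s e = v ∨ t e = v then c v * P e else 0) := by
    intro v
    rw [Finset.mul_sum, Finset.sum_filter]
  simp_rw [h1]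
  rw [Finset.sum_comm]
  apply Finset.sum_congr rfl
  intro e _
  rw [← Finset.sum_filter]
  have : (univ : Finset V).filter (fun v => s e = v ∨ t e = v) = {s e, t e} := by
    ext v; simp only [Finset.mem_filter, Finset.mem_univ, true_and, Finset.mem_insert,
      Finset.mem_singleton]
    constructor
    · rintro (h | h)
      · exact Or.inl h.symm
      · exact Or.inr h.symm
    · rintro (h | h)
      · exact Or.inl h.symm
      · exact Or.inr h.symm
  rw [this, Finset.sum_pair (hl e)]
  ring

/-- a set of edges containing no odd cut is contained in an even subgraph -/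
theorem join {s t : E → V} (hl : ∀ e, s e ≠ t e) (S : Finset E)
    (h : ∀ Y : Finset V,
      (univ.filter (fun e : E => (s e ∈ Y ∧ t e ∉ Y) ∨ (s e ∉ Y ∧ t e ∈ Y))) ⊆ S →
      Even (univ.filter (fun e : E => (s e ∈ Y ∧ t e ∉ Y) ∨ (s e ∉ Y ∧ t e ∈ Y))).card) :
    ∃ J : E → ZMod 2, (∀ e ∈ S, J e = 1) ∧
      ∀ v, ∑ e ∈ univ.filter (fun e : E => s e = v ∨ t e = v), J e = 0 := by
  classical
  let L : (E → ZMod 2) →ₗ[ZMod 2] (V → ZMod 2) :=
    { toFun := fun P v => ∑ e ∈ univ.filter (fun e : E => s e = v ∨ t e = v),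
        (if e ∈ S then 0 else P e)
      map_add' := by
        intro P Q
        ext v
        simp only [Pi.add_apply]
        rw [← Finset.sum_add_distrib]
        apply Finset.sum_congr rfl
        intro e _
        split_ifs <;> simp
      map_smul' := by
        intro r P
        ext v
        simp only [Pi.smul_apply, smul_eq_mul, RingHom.id_apply]
        rw [Finset.mul_sum]
        apply Finset.sum_congr rfl
        intro e _
        split_ifs <;> simp }
  have hL : ∀ P v, L P v = ∑ e ∈ univ.filter (fun e : E => s e = v ∨ t e = v),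
        (if e ∈ S then 0 else P e) := fun _ _ => rfl
  let b : V → ZMod 2 := fun v => ∑ e ∈ univ.filter (fun e : E => s e = v ∨ t e = v),
    (if e ∈ S then 1 else 0)
  have hb : b ∈ LinearMap.range L := by
    rw [← Subspace.forall_mem_dualAnnihilator_apply_eq_zero_iff]
    intro φ hφ
    rw [Submodule.mem_dualAnnihilator] at hφ
    set c : V → ZMod 2 := fun v => φ (Pi.single v 1) with hc
    have hφc : ∀ y : V → ZMod 2, φ y = ∑ v, c v * y v := by
      intro y
      rw [LinearMap.pi_apply_eq_sum_univ φ y]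
      apply Finset.sum_congr rfl
      intro v _
      rw [smul_eq_mul, mul_comm, hc]
      congr 2
      ext w
      simp [Pi.single_apply, eq_comm]
    have h0 : ∀ e ∉ S, c (s e) + c (t e) = 0 := by
      intro e he
      have h1 := hφ (L (Pi.single e 1)) ⟨_, rfl⟩
      rw [hφc] at h1
      simp_rw [hL] at h1
      rw [pairing hl (fun e' => if e' ∈ S then 0 else (Pi.single e (1 : ZMod 2) : E → ZMod 2) e') c] at h1
      rw [Finset.sum_eq_single e] at h1
      · simpa [he] using h1
      · intro e' _ hne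
        simp [Pi.single_apply, hne]
      · intro h2; exact absurd (Finset.mem_univ _) h2
    set Y : Finset V := univ.filter (fun v => c v = 1) with hY
    have hz2 : ∀ x : ZMod 2, x = 0 ∨ x = 1 := by decide
    have hsum : ∀ e, c (s e) + c (t e) =
        if ((s e ∈ Y ∧ t e ∉ Y) ∨ (s e ∉ Y ∧ t e ∈ Y)) then 1 else 0 := by
      intro e
      simp only [hY, Finset.mem_filter, Finset.mem_univ, true_and]
      rcases hz2 (c (s e)) with h1 | h1 <;> rcases hz2 (c (t e)) with h2 | h2 <;>
        rw [h1, h2] <;> decide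
    have hcut : (univ.filter (fun e : E => (s e ∈ Y ∧ t e ∉ Y) ∨ (s e ∉ Y ∧ t e ∈ Y))) ⊆ S := by
      intro e he
      by_contra hn
      have h1 := h0 e hn
      rw [hsum, if_pos (Finset.mem_filter.mp he).2] at h1
      exact one_ne_zero h1
    have hev := h Y hcut
    rw [hφc]
    show ∑ v, c v * (∑ e ∈ univ.filter (fun e : E => s e = v ∨ t e = v),
      (if e ∈ S then 1 else 0)) = 0
    rw [pairing hl (fun e => if e ∈ S then (1 : ZMod 2) else 0) c]
    have : ∀ e, (if e ∈ S then (1 : ZMod 2) else 0) * (c (s e) + c (t e))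
        = if ((s e ∈ Y ∧ t e ∉ Y) ∨ (s e ∉ Y ∧ t e ∈ Y)) then 1 else 0 := by
      intro e
      rw [hsum]
      by_cases he : (s e ∈ Y ∧ t e ∉ Y) ∨ (s e ∉ Y ∧ t e ∈ Y)
      · have : e ∈ S := hcut (Finset.mem_filter.mpr ⟨Finset.mem_univ _, he⟩)
        rw [if_pos he, if_pos this, mul_one]
      · rw [if_neg he, mul_zero]
    simp_rw [this]
    rw [Finset.sum_boole]
    obtain ⟨k, hk⟩ := hev
    rw [hk]
    push_cast
    exact CharTwo.add_self_eq_zero _
  obtain ⟨P, hP⟩ := hb
  refine ⟨fun e => if e ∈ S then 1 else P e, ?_, ?_⟩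
  · intro e he; simp [he]
  · intro v
    have h1 := congrFun hP v
    rw [hL] at h1
    have h2 : ∀ e, (if e ∈ S then (1 : ZMod 2) else P e)
        = (if e ∈ S then 0 else P e) + (if e ∈ S then 1 else 0) := by
      intro e; split_ifs <;> simp
    simp_rw [h2]
    rw [Finset.sum_add_distrib, h1]
    exact CharTwo.add_self_eq_zero _

end

/-- the seven lines minus two -/
def fiveSet : Finset (Finset (Fin 3 → ZMod 2)) :=
  (univ.filter (fun pq : (Fin 3 → ZMod 2) × (Fin 3 → ZMod 2) =>
    (pq.1 0 = 0 ∧ pq.2 0 = 1) ∧ ((pq.1 1 = 0 ∧ pq.2 1 = 1 ∧ pq.1 2 = 1) ∨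
      (pq.1 1 = 1 ∧ pq.2 1 = 0)))).image
      (fun pq => ({pq.1, pq.2, pq.1 + pq.2} : Finset (Fin 3 → ZMod 2)))

theorem five_lines : fiveSet.card ≤ 5 := by
  decide +kernel

theorem mem_fiveSet {p q : Fin 3 → ZMod 2} (h0 : p 0 = 0) (h0' : q 0 = 1)
    (h : (p 1 = 0 ∧ q 1 = 1 ∧ p 2 = 1) ∨ (p 1 = 1 ∧ q 1 = 0)) :
    ({p, q, p + q} : Finset (Fin 3 → ZMod 2)) ∈ fiveSet := by
  unfold fiveSet
  rw [Finset.mem_image]
  exact ⟨(p, q), Finset.mem_filter.mpr ⟨Finset.mem_univ _, ⟨h0, h0'⟩, h⟩, rfl⟩

section
variable {V E : Type} [Fintype V] [DecidableEq V] [Fintype E] [DecidableEq E]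

theorem char2_add {p q r : Fin 3 → ZMod 2} (h : p + (q + r) = 0) : r = p + q := by
  ext i
  have h1 := congrFun h i
  simp only [Pi.add_apply, Pi.zero_apply] at h1 ⊢
  revert h1
  generalize p i = x
  generalize q i = y
  generalize r i = z
  revert x y z
  decide

/-- the flow obtained from a 2-factor `F` and a good perfect matching `M` -/
theorem flow_of_good {s t : E → V} (hl : ∀ e, s e ≠ t e)
    (h3 : ∀ v : V, (univ.filter (fun e : E => s e = v ∨ t e = v)).card = 3)
    (F M : Finset E) (hF : ∀ v, (F.filter (fun e : E => s e = v ∨ t e = v)).card = 2)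
    (hM : ∀ v, (M.filter (fun e : E => s e = v ∨ t e = v)).card = 1)
    (hgood : ∀ Y : Finset V,
      (univ.filter (fun e : E => (s e ∈ Y ∧ t e ∉ Y) ∨ (s e ∉ Y ∧ t e ∈ Y))) ⊆ M \ F →
      Even (univ.filter (fun e : E => (s e ∈ Y ∧ t e ∉ Y) ∨ (s e ∉ Y ∧ t e ∈ Y))).card) :
    ∃ f : E → (Fin 3 → ZMod 2),
        (∀ e, f e ≠ 0) ∧
        (∀ v : V, ∑ e ∈ univ.filter (fun e : E => s e = v ∨ t e = v), f e = 0) ∧
        (univ.image (fun v : V =>
          (univ.filter (fun e : E => s e = v ∨ t e = v)).image f)).card ≤ 5 ∧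
        (∀ e, f e 0 = if e ∈ F then 1 else 0) ∧ (∀ e, f e 1 = if e ∈ M then 0 else 1) := by
  obtain ⟨J, hJ1, hJ2⟩ := join hl (M \ F) hgood
  let f : E → (Fin 3 → ZMod 2) := fun e => ![if e ∈ F then 1 else 0, if e ∈ M then 0 else 1, J e]
  have f0 : ∀ e, f e 0 = if e ∈ F then 1 else 0 := fun e => rfl
  have f1 : ∀ e, f e 1 = if e ∈ M then 0 else 1 := fun e => rfl
  have f2 : ∀ e, f e 2 = J e := fun e => rfl
  have hsum : ∀ v : V, ∑ e ∈ univ.filter (fun e : E => s e = v ∨ t e = v), f e = 0 := by
    intro v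
    ext i
    rw [Finset.sum_apply]
    fin_cases i
    · show ∑ e ∈ univ.filter (fun e : E => s e = v ∨ t e = v), f e 0 = 0
      simp_rw [f0]
      rw [Finset.sum_boole]
      have : (univ.filter (fun e : E => s e = v ∨ t e = v)).filter (fun e => e ∈ F)
          = F.filter (fun e : E => s e = v ∨ t e = v) := by
        ext e; simp only [Finset.mem_filter, Finset.mem_univ, true_and]; tauto
      rw [this, hF v]
      decide
    · show ∑ e ∈ univ.filter (fun e : E => s e = v ∨ t e = v), f e 1 = 0
      simp_rw [f1]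
      have h5 : ∀ e, (if e ∈ M then (0 : ZMod 2) else 1) = 1 - (if e ∈ M then 1 else 0) := by
        intro e; split_ifs <;> simp
      simp_rw [h5]
      rw [Finset.sum_sub_distrib, Finset.sum_boole, Finset.sum_const, h3 v]
      have : (univ.filter (fun e : E => s e = v ∨ t e = v)).filter (fun e => e ∈ M)
          = M.filter (fun e : E => s e = v ∨ t e = v) := by
        ext e; simp only [Finset.mem_filter, Finset.mem_univ, true_and]; tauto
      rw [this, hM v]
      decide
    · show ∑ e ∈ univ.filter (fun e : E => s e = v ∨ t e = v), f e 2 = 0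
      simp_rw [f2]
      exact hJ2 v
  refine ⟨f, ?_, hsum, ?_, f0, f1⟩
  · intro e h
    have h0 := congrFun h 0
    have h1 := congrFun h 1
    have h2 := congrFun h 2
    rw [f0] at h0
    rw [f1] at h1
    rw [f2] at h2
    have hF0 : e ∉ F := by
      intro h5; rw [if_pos h5] at h0; exact one_ne_zero h0
    have hM0 : e ∈ M := by
      by_contra h5; rw [if_neg h5] at h1; exact one_ne_zero h1
    rw [hJ1 e (Finset.mem_sdiff.mpr ⟨hM0, hF0⟩)] at h2
    exact one_ne_zero h2
  · refine (Finset.card_le_card ?_).trans five_lines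
    intro L hL
    rw [Finset.mem_image] at hL
    obtain ⟨v, _, rfl⟩ := hL
    obtain ⟨g, hg⟩ := Finset.card_eq_one.mp (hM v)
    have hgm : g ∈ M.filter (fun e : E => s e = v ∨ t e = v) := by rw [hg]; simp
    have hgm' := Finset.mem_filter.mp hgm
    have hgu : g ∈ univ.filter (fun e : E => s e = v ∨ t e = v) :=
      Finset.mem_filter.mpr ⟨Finset.mem_univ _, hgm'.2⟩
    obtain ⟨x, y, n1, n2, n3, hD⟩ := three_of_mem hgu (h3 v)
    have hinc : ∀ e ∈ ({g, x, y} : Finset E), s e = v ∨ t e = v := by
      intro e he; rw [← hD] at he; exact (Finset.mem_filter.mp he).2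
    have hxM : x ∉ M := by
      intro h5
      have : x ∈ M.filter (fun e : E => s e = v ∨ t e = v) :=
        Finset.mem_filter.mpr ⟨h5, hinc x (by simp)⟩
      rw [hg, Finset.mem_singleton] at this
      exact n1 this.symm
    have hyM : y ∉ M := by
      intro h5
      have : y ∈ M.filter (fun e : E => s e = v ∨ t e = v) :=
        Finset.mem_filter.mpr ⟨h5, hinc y (by simp)⟩
      rw [hg, Finset.mem_singleton] at this
      exact n2 this.symm
    have hFeq : F.filter (fun e : E => s e = v ∨ t e = v)
        = ({g, x, y} : Finset E).filter (fun e => e ∈ F) := by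
      rw [← hD]; ext e; simp only [Finset.mem_filter, Finset.mem_univ, true_and]; tauto
    have hFc := hF v
    rw [hFeq, Finset.card_filter, Finset.sum_insert (by simp [n1, n2]),
      Finset.sum_insert (by simp [n3]), Finset.sum_singleton] at hFc
    have hs := hsum v
    rw [hD, Finset.sum_insert (by simp [n1, n2]), Finset.sum_insert (by simp [n3]),
      Finset.sum_singleton] at hs
    have hy := char2_add hs
    have hx : f x = f g + f y := by
      apply char2_add
      rw [← hs, add_comm (f y)]
    rw [hD, Finset.image_insert, Finset.image_insert, Finset.image_singleton]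
    by_cases hgF : g ∈ F
    · by_cases hxF : x ∈ F
      · -- y ∉ F
        have hyF : y ∉ F := by
          intro h5; simp [hgF, hxF, h5] at hFc
        have hset : ({f g, f x, f y} : Finset (Fin 3 → ZMod 2)) = {f y, f g, f y + f g} := by
          rw [hx, add_comm (f y) (f g)]
          ext z; simp only [Finset.mem_insert, Finset.mem_singleton]; tauto
        rw [hset]
        apply mem_fiveSet
        · rw [f0, if_neg hyF]
        · rw [f0, if_pos hgF]
        · right
          rw [f1, f1, if_neg hyM, if_pos hgm'.1]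
          exact ⟨rfl, rfl⟩
      · have hset : ({f g, f x, f y} : Finset (Fin 3 → ZMod 2)) = {f x, f g, f x + f g} := by
          rw [hy, add_comm (f x) (f g)]
          ext z; simp only [Finset.mem_insert, Finset.mem_singleton]; tauto
        rw [hset]
        apply mem_fiveSet
        · rw [f0, if_neg hxF]
        · rw [f0, if_pos hgF]
        · right
          rw [f1, f1, if_neg hxM, if_pos hgm'.1]
          exact ⟨rfl, rfl⟩
    · have hxF : x ∈ F := by
        by_contra h5
        by_cases h6 : y ∈ F <;> simp [hgF, h5, h6] at hFc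
      rw [hy]
      apply mem_fiveSet
      · rw [f0, if_neg hgF]
      · rw [f0, if_pos hxF]
      · left
        rw [f1, f1, if_pos hgm'.1, if_neg hxM, f2, hJ1 g (Finset.mem_sdiff.mpr ⟨hgm'.1, hgF⟩)]
        exact ⟨rfl, rfl, rfl⟩

/-- the graph formed by the edges in `F` -/
def link (s t : E → V) (F : Finset E) : SimpleGraph V :=
  SimpleGraph.fromRel (fun x y => ∃ e ∈ F, s e = x ∧ t e = y)

/-- at most four odd components: no packing -/
theorem no_pack {s t : E → V} {F : Finset E}
    (h : {C : (link s t F).ConnectedComponent | Odd C.supp.ncard}.ncard ≤ 4) :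
    ¬ (toGr s t).Pack F := by
  classical
  rintro ⟨k, hk1, hk2⟩
  have hadj : ∀ x y, (link s t F).Adj x y → k x = k y := by
    intro x y hxy
    simp only [link, SimpleGraph.fromRel_adj] at hxy
    rcases hxy.2 with ⟨e, he, h1, h2⟩ | ⟨e, he, h1, h2⟩
    · exact hk1 e he x (mem_inc.mpr (Or.inl h1)) y (mem_inc.mpr (Or.inr h2))
    · exact hk1 e he x (mem_inc.mpr (Or.inr h2)) y (mem_inc.mpr (Or.inl h1))
  have hreach : ∀ x y, (link s t F).Reachable x y → k x = k y := by
    rintro x y ⟨p⟩
    induction p with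
    | nil => rfl
    | cons h' _ ih => exact (hadj _ _ h').trans ih
  have hex : ∀ i : Fin 6, i ≠ 5 → ∃ C : (link s t F).ConnectedComponent,
      Odd C.supp.ncard ∧ ∀ v ∈ C.supp, k v = i := by
    intro i hi
    by_contra hno
    push Not at hno
    have hodd := hk2 i hi
    have hev : Even ((univ : Finset V).filter (fun v => k v = i)).card := by
      rw [Finset.card_eq_sum_card_fiberwise (f := fun v => (link s t F).connectedComponentMk v)
        (t := univ) (fun _ _ => Finset.mem_univ _)]
      apply Finset.even_sum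
      intro C _
      by_cases hC : ∃ v, v ∈ C.supp ∧ k v = i
      · obtain ⟨v, hv, hkv⟩ := hC
        have hall : ∀ w ∈ C.supp, k w = i := by
          intro w hw
          rw [SimpleGraph.ConnectedComponent.mem_supp_iff] at hv hw
          rw [← hkv]
          exact hreach w v (SimpleGraph.ConnectedComponent.exact (hw.trans hv.symm))
        have hnot : ¬ Odd C.supp.ncard := by
          intro h5
          obtain ⟨w, hw, hkw⟩ := hno C h5
          exact hkw (hall w hw)
        rw [Nat.not_odd_iff_even] at hnot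
        have : C.supp = (((univ : Finset V).filter (fun v => k v = i)).filter
            (fun v => (link s t F).connectedComponentMk v = C) : Finset V) := by
          ext w
          simp only [Finset.coe_filter, Finset.mem_filter, Finset.mem_univ, true_and,
            Set.mem_setOf_eq, SimpleGraph.ConnectedComponent.mem_supp_iff]
          constructor
          · intro h6; exact ⟨hall w (by rwa [SimpleGraph.ConnectedComponent.mem_supp_iff]), h6⟩
          · intro h6; exact h6.2
        rw [this, Set.ncard_coe_finset] at hnot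
        exact hnot
      · push Not at hC
        rw [Finset.filter_eq_empty_iff.mpr]
        · simp
        · intro v hv h5
          exact hC v (by rwa [SimpleGraph.ConnectedComponent.mem_supp_iff])
            (Finset.mem_filter.mp hv).2
    exact (Nat.not_odd_iff_even.mpr hev) hodd
  choose g hg using hex
  have hinj : Function.Injective (fun i : {i : Fin 6 // i ≠ 5} => g i.1 i.2) := by
    intro i j hij
    obtain ⟨v, hv⟩ := (g i.1 i.2).nonempty_supp
    have h1 := (hg i.1 i.2).2 v hv
    have hij' : g i.1 i.2 = g j.1 j.2 := hij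
    rw [hij'] at hv
    have h2 := (hg j.1 j.2).2 v hv
    exact Subtype.ext (h1.symm.trans h2)
  have hfin : {C : (link s t F).ConnectedComponent | Odd C.supp.ncard}.Finite := Set.toFinite _
  have hrange : Set.range (fun i : {i : Fin 6 // i ≠ 5} => g i.1 i.2) ⊆
      {C : (link s t F).ConnectedComponent | Odd C.supp.ncard} := by
    rintro _ ⟨i, rfl⟩
    exact (hg i.1 i.2).1
  have h1 := Set.ncard_le_ncard hrange hfin
  rw [← Set.image_univ, Set.ncard_image_of_injective _ hinj, Set.ncard_univ,
    Nat.card_eq_fintype_card] at h1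
  have h2 : Fintype.card {i : Fin 6 // i ≠ 5} = 5 := by decide
  omega

/-- parity of cuts in the outer language -/
theorem good_cut {s t : E → V} (hl : ∀ e, s e ≠ t e) (hG : (toGr s t).Cubic) {F M : Finset E}
    (hgood : (toGr s t).Good F M) (Y : Finset V)
    (h : (univ.filter (fun e : E => (s e ∈ Y ∧ t e ∉ Y) ∨ (s e ∉ Y ∧ t e ∈ Y))) ⊆ M \ F) :
    Even (univ.filter (fun e : E => (s e ∈ Y ∧ t e ∉ Y) ∨ (s e ∉ Y ∧ t e ∈ Y))).card := by
  rw [← toGr_cut hl] at h ⊢
  have h1 := hgood Y (Finset.subset_univ _) h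
  have h2 := cut_parity hG (Finset.subset_univ Y : Y ⊆ (toGr s t).A)
  rw [Nat.even_iff] at *
  omega

/-- the matching theorem in the outer language -/
theorem matching {s t : E → V} (hl : ∀ e, s e ≠ t e)
    (h3 : ∀ v : V, (univ.filter (fun e : E => s e = v ∨ t e = v)).card = 3)
    (hb : ∀ S : Finset V,
        (univ.filter (fun e : E => (s e ∈ S ∧ t e ∉ S) ∨ (s e ∉ S ∧ t e ∈ S))).card ≠ 1)
    (F : Finset E) (hF : ∀ v, Even (F.filter (fun e : E => s e = v ∨ t e = v)).card)
    (h4 : {C : (link s t F).ConnectedComponent | Odd C.supp.ncard}.ncard ≤ 4) (e0 : E) :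
    ∃ M : Finset E, e0 ∈ M ∧ (∀ v, (M.filter (fun e : E => s e = v ∨ t e = v)).card = 1) ∧
      ∀ Y : Finset V,
      (univ.filter (fun e : E => (s e ∈ Y ∧ t e ∉ Y) ∨ (s e ∉ Y ∧ t e ∈ Y))) ⊆ M \ F →
      Even (univ.filter (fun e : E => (s e ∈ Y ∧ t e ∉ Y) ∨ (s e ∉ Y ∧ t e ∈ Y))).card := by
  have hG := toGr_cubic hl h3 hb
  have hFe : (toGr s t).EvenSet F := by
    refine ⟨Finset.subset_univ _, ?_⟩
    intro v _
    rw [filter_inc]; exact hF v
  obtain ⟨M, heM, hM, hgood⟩ := main_aux _ (toGr s t) F rfl hG hFe (no_pack h4) e0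
    (Finset.mem_univ _)
  refine ⟨M, heM, ?_, ?_⟩
  · intro v
    have := hM.2 v (Finset.mem_univ _)
    rwa [filter_inc] at this
  · intro Y hY
    exact good_cut hl hG hgood Y hY

end

end Pool.Agent.Helper93.F5
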