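import Pool.Agent.Helper93.F5.Contract

set_option autoImplicit false
open Finset

namespace Pool.Agent.Helper93.F5

variable {V E : Type} [DecidableEq V] [DecidableEq E]

open Gr

/-- a perfect matching of the contracted graph meets the cut `X` exactly once -/
theorem pm_inter_cut {G : Gr V E} (hG : G.Cubic) {X : Finset V} {z : V} (hz : z ∉ X)
    {M : Finset E} (hM : (G.contract X z).PM M) : (M ∩ G.cut X).card = 1 := by
  have hMD : M ⊆ G.D := hM.1.trans (Finset.filter_subset _ _)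
  have h := contract_deg_z hG (X := X) hz hMD
  rw [Finset.inter_eq_left.mpr hM.1] at h
  rw [← h]
  exact hM.2 z (by simp [Gr.contract])

theorem inter_cut_eq {G : Gr V E} (hG : G.Cubic) {X : Finset V} {z : V} (hz : z ∉ X)
    {M : Finset E} (hM : (G.contract X z).PM M) {g : E} (hg : g ∈ M) (hgX : g ∈ G.cut X) :
    M ∩ G.cut X = {g} := by
  obtain ⟨g', hg'⟩ := Finset.card_eq_one.mp (pm_inter_cut hG hz hM)
  have : g ∈ M ∩ G.cut X := Finset.mem_inter.mpr ⟨hg, hgX⟩
  rw [hg', Finset.mem_singleton] at this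
  rw [hg', this]

/-- an edge which lies in both contracted graphs is in the cut -/
theorem mem_cut_of_both {G : Gr V E} (hG : G.Cubic) {X : Finset V} {z z' : V} {e : E}
    (h1 : e ∈ (G.contract X z).D) (h2 : e ∈ (G.contract (G.A \ X) z').D) : e ∈ G.cut X := by
  have he : e ∈ G.D := (Finset.mem_filter.mp h1).1
  obtain ⟨x, y, hxy, h, hx, hy⟩ := ends hG he
  rw [mem_contract_D h] at h1 h2
  rw [mem_cut hxy h]
  simp only [Finset.mem_sdiff, hx, hy, true_and] at h1 h2
  tauto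

theorem cut_sub_contract {G : Gr V E} (hG : G.Cubic) {X : Finset V} {z : V} :
    G.cut X ⊆ (G.contract X z).D := by
  intro e he
  have heD := cut_sub _ _ he
  obtain ⟨x, y, hxy, h, hx, hy⟩ := ends hG heD
  rw [mem_cut hxy h] at he
  rw [mem_contract_D h]
  tauto

theorem mem_one {G : Gr V E} (hG : G.Cubic) {X : Finset V} {z z' : V} {e : E} (he : e ∈ G.D) :
    e ∈ (G.contract X z).D ∨ e ∈ (G.contract (G.A \ X) z').D := by
  obtain ⟨x, y, hxy, h, hx, hy⟩ := ends hG he
  rw [mem_contract_D h, mem_contract_D h]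
  simp only [Finset.mem_sdiff, hx, hy, true_and]
  tauto

theorem glue_deg {G : Gr V E} (hG : G.Cubic) {X : Finset V} {z z' : V}
    (hX : X ⊆ G.A) (hz : z ∉ X) (hz' : z' ∉ G.A \ X) {M1 M2 : Finset E}
    (hM1 : (G.contract X z).PM M1) (hM2 : (G.contract (G.A \ X) z').PM M2) {g : E}
    (hg1 : g ∈ M1) (hg2 : g ∈ M2) (hgX : g ∈ G.cut X) {v : V} (hv : v ∈ X) :
    (M1 ∪ M2).filter (fun e => v ∈ G.inc e) = M1.filter (fun e => v ∈ (G.contract X z).inc e) := by
  ext e
  simp only [Finset.mem_filter, Finset.mem_union, contract_mem_inc hz hv]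
  constructor
  · rintro ⟨h1 | h1, h2⟩
    · exact ⟨h1, h2⟩
    · refine ⟨?_, h2⟩
      have heD2 := hM2.1 h1
      have heD : e ∈ G.D := (Finset.mem_filter.mp heD2).1
      have heD1 : e ∈ (G.contract X z).D := by
        simp only [Gr.contract, Finset.mem_filter]
        exact ⟨heD, v, by simp [h2, hv]⟩
      have hec := mem_cut_of_both hG heD1 heD2
      have h5 : M2 ∩ G.cut (G.A \ X) = {g} :=
        inter_cut_eq hG hz' hM2 hg2 (by rw [cut_compl hG]; exact hgX)
      rw [cut_compl hG] at h5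
      have : e ∈ M2 ∩ G.cut X := Finset.mem_inter.mpr ⟨h1, hec⟩
      rw [h5, Finset.mem_singleton] at this
      rw [this]; exact hg1
  · rintro ⟨h1, h2⟩; exact ⟨Or.inl h1, h2⟩

theorem sdiff_sdiff_A {G : Gr V E} {X : Finset V} (hX : X ⊆ G.A) : G.A \ (G.A \ X) = X := by
  ext v; simp only [Finset.mem_sdiff]
  constructor
  · rintro ⟨h1, h2⟩; by_contra h3; exact h2 ⟨h1, h3⟩
  · intro h; exact ⟨hX h, fun h2 => h2.2 h⟩

theorem glue_pm {G : Gr V E} (hG : G.Cubic) {X : Finset V} {z z' : V}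
    (hX : X ⊆ G.A) (hz : z ∉ X) (hz' : z' ∈ X) {M1 M2 : Finset E}
    (hM1 : (G.contract X z).PM M1) (hM2 : (G.contract (G.A \ X) z').PM M2) {g : E}
    (hg1 : g ∈ M1) (hg2 : g ∈ M2) (hgX : g ∈ G.cut X) : G.PM (M1 ∪ M2) := by
  refine ⟨?_, ?_⟩
  · apply Finset.union_subset
    · exact hM1.1.trans (Finset.filter_subset _ _)
    · exact hM2.1.trans (Finset.filter_subset _ _)
  · intro v hv
    have hz2 : z' ∉ G.A \ X := by simp [hz']
    by_cases hvX : v ∈ X
    · rw [glue_deg hG hX hz hz2 hM1 hM2 hg1 hg2 hgX hvX]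
      exact hM1.2 v (by simp [Gr.contract, hvX])
    · have hvX' : v ∈ G.A \ X := by simp [hv, hvX]
      have hM1' : (G.contract (G.A \ (G.A \ X)) z).PM M1 := by rwa [sdiff_sdiff_A hX]
      have := glue_deg (G := G) (X := G.A \ X) (z := z') (z' := z) hG Finset.sdiff_subset hz2
        (by rw [sdiff_sdiff_A hX]; exact hz) hM2 hM1' hg2 hg1
        (by rw [cut_compl hG]; exact hgX) hvX'
      rw [Finset.union_comm, this]
      exact hM2.2 v (by simp [Gr.contract, hv, hvX])

theorem glue_inter {G : Gr V E} (hG : G.Cubic) {X : Finset V} {z z' : V}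
    (hz : z ∉ X) (hz' : z' ∈ X) {M1 M2 : Finset E}
    (hM1 : (G.contract X z).PM M1) (hM2 : (G.contract (G.A \ X) z').PM M2) {g : E}
    (hg1 : g ∈ M1) (hg2 : g ∈ M2) (hgX : g ∈ G.cut X) : (M1 ∪ M2) ∩ G.cut X = {g} := by
  have h1 := inter_cut_eq hG hz hM1 hg1 hgX
  have h2 := inter_cut_eq hG (X := G.A \ X) (z := z') (by simp [hz']) hM2 hg2
    (by rw [cut_compl hG]; exact hgX)
  rw [cut_compl hG] at h2
  rw [Finset.union_inter_distrib_right, h1, h2, Finset.union_self]

/-- the half lemma: size of `Y ∩ X` is even -/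
theorem half {G : Gr V E} (hG : G.Cubic) {X Y : Finset V} {z : V} (hX : X ⊆ G.A) (hY : Y ⊆ G.A)
    (hz : z ∉ X) (h3 : (G.cut X).card = 3) {F M M1 : Finset E} (hF : G.EvenSet F) (hM : G.PM M)
    (hMM : ∀ e ∈ M, e ∈ (G.contract X z).D → e ∈ M1)
    (hgood : (G.contract X z).Good (F ∩ (G.contract X z).D) M1) {g a : E}
    (hg : M ∩ G.cut X = {g}) (hYc : G.cut Y ⊆ M \ F) (haX : a ∈ G.cut X) (hag : a ≠ g)
    (haY : Disjoint (G.inc a) Y) : Even (Y ∩ X).card := by
  have h1 := side hG hX hY h3 hF hM hg hYc haX hag haY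
  apply hgood (Y ∩ X)
  · intro v hv
    simp only [Gr.contract, Finset.mem_insert]
    exact Or.inr (Finset.mem_inter.mp hv).2
  · have h2 : (G.contract X z).cut (Y ∩ X) = G.cut (Y ∩ X) :=
      contract_cut_sub hG hX hz Finset.inter_subset_right
    have h4 := cut_sub (G.contract X z) (Y ∩ X)
    intro e he
    have he2 := he
    rw [h2] at he2
    have h5 := Finset.mem_sdiff.mp (h1 he2)
    refine Finset.mem_sdiff.mpr ⟨hMM e h5.1 (h4 he), ?_⟩
    intro h6
    exact h5.2 (Finset.mem_inter.mp h6).1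

theorem glue_good {G : Gr V E} (hG : G.Cubic) {X : Finset V} {z z' : V}
    (hX : X ⊆ G.A) (hz : z ∈ G.A \ X) (hz' : z' ∈ X) (h3 : (G.cut X).card = 3)
    {F M1 M2 : Finset E} (hF : G.EvenSet F)
    (hM1 : (G.contract X z).PM M1) (hM2 : (G.contract (G.A \ X) z').PM M2)
    (hgood1 : (G.contract X z).Good (F ∩ (G.contract X z).D) M1)
    (hgood2 : (G.contract (G.A \ X) z').Good (F ∩ (G.contract (G.A \ X) z').D) M2) {g : E}
    (hg1 : g ∈ M1) (hg2 : g ∈ M2) (hgX : g ∈ G.cut X) : G.Good F (M1 ∪ M2) := by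
  have hzX : z ∉ X := (Finset.mem_sdiff.mp hz).2
  have hzX2 : z' ∉ G.A \ X := by simp [hz']
  have hM := glue_pm hG hX hzX hz' hM1 hM2 hg1 hg2 hgX
  have hg := glue_inter hG hzX hz' hM1 hM2 hg1 hg2 hgX
  have hc2 : G.cut (G.A \ X) = G.cut X := cut_compl hG X
  obtain ⟨a, b, hga, hgb, hab, hcut⟩ := three_of_mem hgX h3
  have haX : a ∈ G.cut X := by rw [hcut]; simp
  obtain ⟨x, y, hxy, hinc, hx, hy⟩ := ends hG (cut_sub _ _ haX)
  have haM : a ∉ M1 ∪ M2 := by
    intro h
    have : a ∈ (M1 ∪ M2) ∩ G.cut X := Finset.mem_inter.mpr ⟨h, haX⟩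
    rw [hg, Finset.mem_singleton] at this
    exact hga this.symm
  have hMM1 : ∀ e ∈ M1 ∪ M2, e ∈ (G.contract X z).D → e ∈ M1 := by
    intro e he heD
    rcases Finset.mem_union.mp he with h | h
    · exact h
    · have h5 := mem_cut_of_both hG heD (hM2.1 h)
      have : e ∈ (M1 ∪ M2) ∩ G.cut X := Finset.mem_inter.mpr ⟨he, h5⟩
      rw [hg, Finset.mem_singleton] at this
      rw [this]; exact hg1
  have hMM2 : ∀ e ∈ M1 ∪ M2, e ∈ (G.contract (G.A \ X) z').D → e ∈ M2 := by
    intro e he heD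
    rcases Finset.mem_union.mp he with h | h
    · have h5 := mem_cut_of_both hG (hM1.1 h) heD
      have : e ∈ (M1 ∪ M2) ∩ G.cut X := Finset.mem_inter.mpr ⟨he, h5⟩
      rw [hg, Finset.mem_singleton] at this
      rw [this]; exact hg2
    · exact h
  apply good_of_avoid hG x
  intro Y hY hxY hYc
  have haY : a ∉ G.cut Y := fun h => haM (Finset.mem_sdiff.mp (hYc h)).1
  have hyY : y ∉ Y := by
    intro h
    apply haY
    rw [mem_cut hxy hinc]
    exact ⟨cut_sub _ _ haX, by tauto⟩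
  have hdis : Disjoint (G.inc a) Y := by
    rw [hinc]; simp [hxY, hyY]
  have e1 := half hG hX hY hzX h3 hF hM hMM1 hgood1 hg hYc haX hga.symm hdis
  have e2 := half hG Finset.sdiff_subset hY hzX2 (by rw [hc2]; exact h3) hF hM hMM2 hgood2
    (by rw [hc2]; exact hg) hYc (by rw [hc2]; exact haX) hga.symm hdis
  have h6 : Y.card = (Y ∩ X).card + (Y ∩ (G.A \ X)).card := by
    rw [← Finset.card_union_of_disjoint]
    · congr 1
      ext v
      simp only [Finset.mem_union, Finset.mem_inter, Finset.mem_sdiff]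
      constructor
      · intro h
        by_cases hv : v ∈ X
        · exact Or.inl ⟨h, hv⟩
        · exact Or.inr ⟨h, hY h, hv⟩
      · rintro (h | h) <;> exact h.1
    · rw [Finset.disjoint_left]
      intro v h5 h6
      simp only [Finset.mem_inter, Finset.mem_sdiff] at h5 h6
      exact h6.2.2 h5.2
  rw [h6]
  exact e1.add e2

end Pool.Agent.Helper93.F5
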