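import Pool.Agent.Helper93.F5.Main

set_option autoImplicit false
open Finset

namespace Pool.Agent.Helper93.F5

variable {V E : Type} [DecidableEq V] [DecidableEq E]

open Gr

/-- five uncovered vertices form a packing -/
theorem pack_of_five {G : Gr V E} {F : Finset E} {w0 w1 w2 w3 w4 : V}
    (h01 : w0 ≠ w1) (h02 : w0 ≠ w2) (h03 : w0 ≠ w3) (h04 : w0 ≠ w4) (h12 : w1 ≠ w2)
    (h13 : w1 ≠ w3) (h14 : w1 ≠ w4) (h23 : w2 ≠ w3) (h24 : w2 ≠ w4) (h34 : w3 ≠ w4)
    (a0 : w0 ∈ G.A) (a1 : w1 ∈ G.A) (a2 : w2 ∈ G.A) (a3 : w3 ∈ G.A) (a4 : w4 ∈ G.A)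
    (u0 : ∀ e ∈ F, w0 ∉ G.inc e) (u1 : ∀ e ∈ F, w1 ∉ G.inc e) (u2 : ∀ e ∈ F, w2 ∉ G.inc e)
    (u3 : ∀ e ∈ F, w3 ∉ G.inc e) (u4 : ∀ e ∈ F, w4 ∉ G.inc e) : G.Pack F := by
  refine ⟨fun v => if v = w0 then 0 else if v = w1 then 1 else if v = w2 then 2 else
    if v = w3 then 3 else if v = w4 then 4 else 5, ?_, ?_⟩
  · have key : ∀ e ∈ F, ∀ x ∈ G.inc e, (if x = w0 then (0 : Fin 6) else if x = w1 then 1 else
        if x = w2 then 2 else if x = w3 then 3 else if x = w4 then 4 else 5) = 5 := by
      intro e he x hx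
      have b0 : x ≠ w0 := by rintro rfl; exact u0 e he hx
      have b1 : x ≠ w1 := by rintro rfl; exact u1 e he hx
      have b2 : x ≠ w2 := by rintro rfl; exact u2 e he hx
      have b3 : x ≠ w3 := by rintro rfl; exact u3 e he hx
      have b4 : x ≠ w4 := by rintro rfl; exact u4 e he hx
      simp [b0, b1, b2, b3, b4]
    intro e he x hx y hy
    show (if x = w0 then (0 : Fin 6) else _) = (if y = w0 then (0 : Fin 6) else _)
    rw [key e he x hx, key e he y hy]
  · have key : ∀ i : Fin 6, i ≠ 5 → ∃ w ∈ G.A, ∀ v, (if v = w0 then (0 : Fin 6) else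
        if v = w1 then 1 else if v = w2 then 2 else if v = w3 then 3 else
        if v = w4 then 4 else 5) = i ↔ v = w := by
      intro i hi
      fin_cases i
      · refine ⟨w0, a0, fun v => ?_⟩
        constructor
        · intro h; by_contra hne; revert h; simp only [hne, if_false]; split_ifs <;> simp
        · rintro rfl; simp
      · refine ⟨w1, a1, fun v => ?_⟩
        constructor
        · intro h; by_contra hne; revert h; simp only [hne, if_false]; split_ifs <;> simp
        · rintro rfl; simp [h01.symm]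
      · refine ⟨w2, a2, fun v => ?_⟩
        constructor
        · intro h; by_contra hne; revert h; simp only [hne, if_false]; split_ifs <;> simp
        · rintro rfl; simp [h02.symm, h12.symm]
      · refine ⟨w3, a3, fun v => ?_⟩
        constructor
        · intro h; by_contra hne; revert h; simp only [hne, if_false]; split_ifs <;> simp
        · rintro rfl; simp [h03.symm, h13.symm, h23.symm]
      · refine ⟨w4, a4, fun v => ?_⟩
        constructor
        · intro h; by_contra hne; revert h; simp only [hne, if_false]; split_ifs <;> simp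
        · rintro rfl; simp [h04.symm, h14.symm, h24.symm, h34.symm]
      · exact absurd rfl hi
    intro i hi
    obtain ⟨w, hw, hk⟩ := key i hi
    have : G.A.filter (fun v => (if v = w0 then (0 : Fin 6) else
        if v = w1 then 1 else if v = w2 then 2 else if v = w3 then 3 else
        if v = w4 then 4 else 5) = i) = {w} := by
      ext v
      rw [Finset.mem_filter, Finset.mem_singleton, hk v]
      constructor
      · exact fun h => h.2
      · rintro rfl; exact ⟨hw, rfl⟩
    rw [this, Finset.card_singleton]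
    exact odd_one

/-- at a vertex of an edge of `F`, exactly one of the two other edges is in `F` -/
theorem one_more {G : Gr V E} {F : Finset E} (hF : G.EvenSet F) {w : V} (hw : w ∈ G.A)
    {c s t : E} (hc : c ∈ F) (hcs : c ≠ s) (hct : c ≠ t) (hst : s ≠ t)
    (hD : G.D.filter (fun e => w ∈ G.inc e) = {c, s, t}) : s ∈ F ↔ t ∉ F := by
  have h1 : F.filter (fun e => w ∈ G.inc e) = ({c, s, t} : Finset E).filter (fun e => e ∈ F) := by
    rw [← hD]
    ext e; simp only [Finset.mem_filter]
    constructor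
    · rintro ⟨h1, h2⟩; exact ⟨⟨hF.1 h1, h2⟩, h1⟩
    · rintro ⟨⟨_, h2⟩, h1⟩; exact ⟨h1, h2⟩
  have h2 := hF.2 w hw
  rw [h1] at h2
  by_cases hs : s ∈ F <;> by_cases ht : t ∈ F
  · exfalso
    rw [Finset.filter_true_of_mem] at h2
    · rw [Finset.card_insert_of_notMem (by simp [hcs, hct]), Finset.card_pair hst] at h2
      revert h2; decide
    · intro e he
      simp only [Finset.mem_insert, Finset.mem_singleton] at he
      rcases he with rfl | rfl | rfl <;> assumption
  · simp [hs, ht]
  · simp [hs, ht]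
  · exfalso
    have : ({c, s, t} : Finset E).filter (fun e => e ∈ F) = {c} := by
      ext e
      simp only [Finset.mem_filter, Finset.mem_insert, Finset.mem_singleton]
      constructor
      · rintro ⟨rfl | rfl | rfl, h⟩
        · rfl
        · exact absurd h hs
        · exact absurd h ht
      · rintro rfl; exact ⟨by simp, hc⟩
    rw [this] at h2
    revert h2; simp

/-- in a graph without nontrivial 3-cuts and without packing, some edge next to `e0` leads to a
covered vertex -/
theorem exists_covered {G : Gr V E} (hG : G.Cubic) (h3 : NoThree G) (hn : 5 ≤ G.A.card)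
    {F : Finset E} (hF : G.EvenSet F) (hP : ¬ G.Pack F) {e0 : E} (he : e0 ∈ G.D) :
    ∃ (p u : V) (a c : E), p ∈ G.inc e0 ∧ a ∈ G.D ∧ a ≠ e0 ∧ p ≠ u ∧ G.inc a = {p, u} ∧ c ∈ F ∧
      u ∈ G.inc c := by
  by_contra hno
  push Not at hno
  obtain ⟨x, y, hxy, hi, hx, hy⟩ := ends hG he
  have hxe : e0 ∈ G.D.filter (fun e => x ∈ G.inc e) := Finset.mem_filter.mpr ⟨he, by rw [hi]; simp⟩
  have hye : e0 ∈ G.D.filter (fun e => y ∈ G.inc e) := Finset.mem_filter.mpr ⟨he, by rw [hi]; simp⟩
  obtain ⟨a1, a2, n1, n2, n3, hdx⟩ := three_of_mem hxe (hG.deg x hx)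
  obtain ⟨a3, a4, n4, n5, n6, hdy⟩ := three_of_mem hye (hG.deg y hy)
  have m1 : a1 ∈ G.D.filter (fun e => x ∈ G.inc e) := by rw [hdx]; simp
  have m2 : a2 ∈ G.D.filter (fun e => x ∈ G.inc e) := by rw [hdx]; simp
  have m3 : a3 ∈ G.D.filter (fun e => y ∈ G.inc e) := by rw [hdy]; simp
  have m4 : a4 ∈ G.D.filter (fun e => y ∈ G.inc e) := by rw [hdy]; simp
  rw [Finset.mem_filter] at m1 m2 m3 m4
  obtain ⟨w1, x1, i1⟩ := other_end m1.2 (hG.two _ m1.1)
  obtain ⟨w2, x2, i2⟩ := other_end m2.2 (hG.two _ m2.1)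
  obtain ⟨w3, x3, i3⟩ := other_end m3.2 (hG.two _ m3.1)
  obtain ⟨w4, x4, i4⟩ := other_end m4.2 (hG.two _ m4.1)
  have hxin : x ∈ G.inc e0 := by rw [hi]; simp
  have hyin : y ∈ G.inc e0 := by rw [hi]; simp
  have u1 : ∀ c ∈ F, w1 ∉ G.inc c := fun c hc => hno x w1 a1 c hxin m1.1 n1.symm x1 i1 hc
  have u2 : ∀ c ∈ F, w2 ∉ G.inc c := fun c hc => hno x w2 a2 c hxin m2.1 n2.symm x2 i2 hc
  have u3 : ∀ c ∈ F, w3 ∉ G.inc c := fun c hc => hno y w3 a3 c hyin m3.1 n4.symm x3 i3 hc
  have u4 : ∀ c ∈ F, w4 ∉ G.inc c := fun c hc => hno y w4 a4 c hyin m4.1 n5.symm x4 i4 hc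
  have ha1 : a1 ∉ F := fun h => u1 a1 h (by rw [i1]; simp)
  have ha2 : a2 ∉ F := fun h => u2 a2 h (by rw [i2]; simp)
  have u0 : ∀ c ∈ F, x ∉ G.inc c := by
    intro c hc hxc
    have h1 : c ∈ G.D.filter (fun e => x ∈ G.inc e) := Finset.mem_filter.mpr ⟨hF.1 hc, hxc⟩
    rw [hdx] at h1
    simp only [Finset.mem_insert, Finset.mem_singleton] at h1
    rcases h1 with rfl | rfl | rfl
    · have := (one_more hF hx hc n1 n2 n3 hdx)
      exact ha1 (this.mpr ha2)
    · exact ha1 hc
    · exact ha2 hc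
  have simp' : ∀ e ∈ G.D, ∀ f ∈ G.D, G.inc e = G.inc f → e = f :=
    fun e he f hf h => simple hG h3 hn he hf h
  have y1 : y ≠ w1 := by
    rintro rfl; exact n1 (simp' _ he _ m1.1 (by rw [hi, i1]))
  have y2 : y ≠ w2 := by
    rintro rfl; exact n2 (simp' _ he _ m2.1 (by rw [hi, i2]))
  have x3' : x ≠ w3 := by
    rintro rfl; exact n4 (simp' _ he _ m3.1 (by rw [hi, i3, Finset.pair_comm]))
  have x4' : x ≠ w4 := by
    rintro rfl; exact n5 (simp' _ he _ m4.1 (by rw [hi, i4, Finset.pair_comm]))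
  have d12 : w1 ≠ w2 := by
    rintro rfl; exact n3 (simp' _ m1.1 _ m2.1 (by rw [i1, i2]))
  have d34 : w3 ≠ w4 := by
    rintro rfl; exact n6 (simp' _ m3.1 _ m4.1 (by rw [i3, i4]))
  have tri : ∀ w, x ≠ w → y ≠ w → ∀ f ∈ G.D, ∀ g ∈ G.D, G.inc f = {x, w} → G.inc g = {y, w} →
      False := by
    intro w h1 h2 f hf g hg h4 h5
    exact no_triangle hG h3 hn he hg hf hxy h2 h1 hi h5 h4
  have d13 : w1 ≠ w3 := by
    rintro rfl; exact tri w1 x1 y1 a1 m1.1 a3 m3.1 i1 i3
  have d14 : w1 ≠ w4 := by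
    rintro rfl; exact tri w1 x1 y1 a1 m1.1 a4 m4.1 i1 i4
  have d23 : w2 ≠ w3 := by
    rintro rfl; exact tri w2 x2 y2 a2 m2.1 a3 m3.1 i2 i3
  have d24 : w2 ≠ w4 := by
    rintro rfl; exact tri w2 x2 y2 a2 m2.1 a4 m4.1 i2 i4
  apply hP
  exact pack_of_five x1 x2 x3' x4' d12 d13 d14 d23 d24 d34 hx
    (hG.sub _ m1.1 (by rw [i1]; simp)) (hG.sub _ m2.1 (by rw [i2]; simp))
    (hG.sub _ m3.1 (by rw [i3]; simp)) (hG.sub _ m4.1 (by rw [i4]; simp)) u0 u1 u2 u3 u4

/-- the configuration for the reduction -/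
theorem exists_conf {G : Gr V E} (hG : G.Cubic) (h3 : NoThree G) (hn : 5 ≤ G.A.card)
    {F : Finset E} (hF : G.EvenSet F) {p u : V} {e0 a c0 : E} (he : e0 ∈ G.D)
    (hp : p ∈ G.inc e0) (ha : a ∈ G.D) (hae : a ≠ e0) (hpu : p ≠ u) (ia : G.inc a = {p, u})
    (hc0 : c0 ∈ F) (huc : u ∈ G.inc c0) :
    ∃ (v q r r' : V) (b c d d' : E), Conf G u v p q r r' a b c d d' ∧ c ∈ F ∧ (a ∈ F ↔ d ∈ F) ∧
      (b ∈ F ↔ d' ∈ F) ∧ ¬ (a ∈ F ∧ b ∈ F) ∧ e0 ∉ ({a, b, c, d, d'} : Finset E) := by
  have simp' : ∀ e ∈ G.D, ∀ f ∈ G.D, G.inc e = G.inc f → e = f :=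
    fun e he f hf h => simple hG h3 hn he hf h
  have hpA : p ∈ G.A := hG.sub a ha (by rw [ia]; simp)
  have huA : u ∈ G.A := hG.sub a ha (by rw [ia]; simp)
  have hau : a ∈ G.D.filter (fun e => u ∈ G.inc e) := Finset.mem_filter.mpr ⟨ha, by rw [ia]; simp⟩
  -- choose c
  have hexc : ∃ c ∈ F, u ∈ G.inc c ∧ c ≠ a := by
    by_cases h : c0 = a
    · subst h
      obtain ⟨s, t, h1, h2, h4, hD⟩ := three_of_mem hau (hG.deg u huA)
      have := one_more hF huA hc0 h1 h2 h4 hD
      by_cases ht : t ∈ F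
      · refine ⟨t, ht, ?_, h2.symm⟩
        have : t ∈ G.D.filter (fun e => u ∈ G.inc e) := by rw [hD]; simp
        exact (Finset.mem_filter.mp this).2
      · refine ⟨s, this.mpr ht, ?_, h1.symm⟩
        have : s ∈ G.D.filter (fun e => u ∈ G.inc e) := by rw [hD]; simp
        exact (Finset.mem_filter.mp this).2
    · exact ⟨c0, hc0, huc, h⟩
  obtain ⟨c, hcF, huc', hca⟩ := hexc
  have hcD := hF.1 hcF
  have hcu : c ∈ G.D.filter (fun e => u ∈ G.inc e) := Finset.mem_filter.mpr ⟨hcD, huc'⟩
  obtain ⟨b, hab, hcb, hDu⟩ := three_of_mem_mem hau hcu hca.symm (hG.deg u huA)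
  have hbu : b ∈ G.D.filter (fun e => u ∈ G.inc e) := by rw [hDu]; simp
  rw [Finset.mem_filter] at hbu
  obtain ⟨v, huv, ic⟩ := other_end huc' (hG.two c hcD)
  have hvA : v ∈ G.A := hG.sub c hcD (by rw [ic]; simp)
  obtain ⟨q, huq, ib⟩ := other_end hbu.2 (hG.two b hbu.1)
  have hqA : q ∈ G.A := hG.sub b hbu.1 (by rw [ib]; simp)
  have hcv : c ∈ G.D.filter (fun e => v ∈ G.inc e) :=
    Finset.mem_filter.mpr ⟨hcD, by rw [ic]; simp⟩
  obtain ⟨d1, d2, hcd1, hcd2, hd12, hDv⟩ := three_of_mem hcv (hG.deg v hvA)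
  have hone_u : a ∈ F ↔ b ∉ F := by
    have hD2 : G.D.filter (fun e => u ∈ G.inc e) = {c, a, b} := by
      rw [hDu]; ext e; simp only [Finset.mem_insert, Finset.mem_singleton]; tauto
    exact one_more hF huA hcF hca hcb hab hD2
  have hone_v : d1 ∈ F ↔ d2 ∉ F := one_more hF hvA hcF hcd1 hcd2 hd12 hDv
  -- choose d, d'
  have hexd : ∃ d d' : E, c ≠ d ∧ c ≠ d' ∧ d ≠ d' ∧
      G.D.filter (fun e => v ∈ G.inc e) = {c, d, d'} ∧ (a ∈ F ↔ d ∈ F) ∧ (b ∈ F ↔ d' ∈ F) := by
    by_cases h : a ∈ F ↔ d1 ∈ F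
    · refine ⟨d1, d2, hcd1, hcd2, hd12, hDv, h, ?_⟩
      tauto
    · refine ⟨d2, d1, hcd2, hcd1, hd12.symm, ?_, ?_, ?_⟩
      · rw [hDv]; ext e; simp only [Finset.mem_insert, Finset.mem_singleton]; tauto
      · tauto
      · tauto
  obtain ⟨d, d', hcd, hcd', hdd', hDv', had, hbd⟩ := hexd
  have hdv : d ∈ G.D.filter (fun e => v ∈ G.inc e) := by rw [hDv']; simp
  have hdv' : d' ∈ G.D.filter (fun e => v ∈ G.inc e) := by rw [hDv']; simp
  rw [Finset.mem_filter] at hdv hdv'
  obtain ⟨r, hvr, id⟩ := other_end hdv.2 (hG.two d hdv.1)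
  obtain ⟨r', hvr', id'⟩ := other_end hdv'.2 (hG.two d' hdv'.1)
  have hrA : r ∈ G.A := hG.sub d hdv.1 (by rw [id]; simp)
  have hrA' : r' ∈ G.A := hG.sub d' hdv'.1 (by rw [id']; simp)
  have pv : p ≠ v := by
    rintro rfl
    exact hca.symm (simp' a ha c hcD (by rw [ia, ic, Finset.pair_comm]))
  have qv : q ≠ v := by
    rintro rfl
    exact hcb.symm (simp' b hbu.1 c hcD (by rw [ib, ic]))
  have ru : r ≠ u := by
    rintro rfl
    exact hcd (simp' c hcD d hdv.1 (by rw [ic, id, Finset.pair_comm]))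
  have ru' : r' ≠ u := by
    rintro rfl
    exact hcd' (simp' c hcD d' hdv'.1 (by rw [ic, id', Finset.pair_comm]))
  have pr : p ≠ r := by
    rintro rfl
    exact no_triangle hG h3 hn ha hcD hdv.1 hpu huv pv ia ic (by rw [id, Finset.pair_comm])
  have qr' : q ≠ r' := by
    rintro rfl
    exact no_triangle hG h3 hn hbu.1 hcD hdv'.1 huq.symm huv qv (by rw [ib, Finset.pair_comm]) ic
      (by rw [id', Finset.pair_comm])
  have hue : u ∉ G.inc e0 := by
    intro h
    apply hae
    apply simp' a ha e0 he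
    rw [ia]
    apply Finset.eq_of_subset_of_card_le
    · intro w hw
      simp only [Finset.mem_insert, Finset.mem_singleton] at hw
      rcases hw with rfl | rfl <;> assumption
    · rw [hG.two e0 he, Finset.card_pair hpu]
  have hve : v ∉ G.inc e0 := by
    intro h
    have : G.inc e0 = {p, v} := by
      symm
      apply Finset.eq_of_subset_of_card_le
      · intro w hw
        simp only [Finset.mem_insert, Finset.mem_singleton] at hw
        rcases hw with rfl | rfl <;> assumption
      · rw [hG.two e0 he, Finset.card_pair pv]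
    exact no_triangle hG h3 hn ha hcD he hpu huv pv ia ic this
  refine ⟨v, q, r, r', b, c, d, d', ?_, hcF, had, hbd, ?_, ?_⟩
  · exact {
      hu := by rw [hDu]; ext e; simp only [Finset.mem_insert, Finset.mem_singleton]; tauto
      hv := hDv'
      ab := hab
      ac := hca.symm
      bc := hcb.symm
      cd := hcd
      cd' := hcd'
      dd' := hdd'
      ia := ia
      ib := by rw [ib, Finset.pair_comm]
      ic := ic
      id := id
      id' := id'
      pu := hpu
      qu := huq.symm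
      uv := huv
      vr := hvr
      vr' := hvr'
      pv := pv
      qv := qv
      ru := ru
      ru' := ru'
      pr := pr
      qr' := qr'
      uA := huA
      vA := hvA
      pA := hpA
      qA := hqA
      rA := hrA
      rA' := hrA' }
  · rintro ⟨h1, h2⟩; exact hone_u.mp h1 h2
  · simp only [Finset.mem_insert, Finset.mem_singleton, not_or]
    refine ⟨hae.symm, ?_, ?_, ?_, ?_⟩
    · rintro rfl; exact hue hbu.2
    · rintro rfl; exact hue huc'
    · rintro rfl; exact hve hdv.2
    · rintro rfl; exact hve hdv'.2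

/-- the main theorem in the internal language -/
theorem main_aux (n : ℕ) : ∀ (G : Gr V E) (F : Finset E), G.A.card = n → G.Cubic → G.EvenSet F →
    ¬ G.Pack F → ∀ e0 ∈ G.D, ∃ M, e0 ∈ M ∧ G.PM M ∧ G.Good F M := by
  induction n using Nat.strong_induction_on with
  | _ n ih =>
    intro G F hn hG hF hP e0 he
    by_cases h4 : G.A.card ≤ 4
    · exact base hG h4 he
    · push Not at h4
      by_cases h3 : NoThree G
      · obtain ⟨p, u, a, c0, hp, ha, hae, hpu, ia, hc0, huc⟩ :=
          exists_covered hG h3 (by omega) hF hP he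
        obtain ⟨v, q, r, r', b, c, d, d', hC, hcF, had, hbd, hnab, he0⟩ :=
          exists_conf hG h3 (by omega) hF he hp ha hae hpu ia hc0 huc
        have hG' := hC.red_cubic hG h3
        have hF' := hC.red_even hF had hbd
        have hP' : ¬ (G.red u v p q r r' a b c d d').Pack (F \ {c, d, d'}) :=
          fun h => hP (hC.red_pack hF.1 had hbd hnab h)
        have hcard : (G.red u v p q r r' a b c d d').A.card < n := by
          have : (G.A \ {u, v}).card < G.A.card := by
            apply Finset.card_lt_card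
            refine ⟨Finset.sdiff_subset, fun h => ?_⟩
            have := Finset.mem_sdiff.mp (h hC.uA)
            simp at this
          rw [← hn]; exact this
        have he0' : e0 ∈ (G.red u v p q r r' a b c d d').D := by
          simp only [Gr.red, Finset.mem_sdiff, he, true_and]
          intro h; apply he0
          simp only [Finset.mem_insert, Finset.mem_singleton] at h ⊢
          tauto
        obtain ⟨M, heM, hM, hgood⟩ := ih _ hcard _ _ rfl hG' hF' hP' e0 he0'
        have haM : a ∉ M := by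
          intro haM
          have hpA' : p ∈ (G.red u v p q r r' a b c d d').A := by
            simp only [Gr.red, Finset.mem_sdiff, Finset.mem_insert, Finset.mem_singleton, not_or]
            exact ⟨hC.pA, hC.pu, hC.pv⟩
          have h1 := hM.2 p hpA'
          obtain ⟨g, hg⟩ := Finset.card_eq_one.mp h1
          have ne1 : e0 ≠ a := fun h => he0 (by rw [h]; simp)
          have ne2 : e0 ≠ b := fun h => he0 (by rw [h]; simp)
          have m1 : e0 ∈ M.filter (fun e => p ∈ (G.red u v p q r r' a b c d d').inc e) := by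
            refine Finset.mem_filter.mpr ⟨heM, ?_⟩
            rw [Conf.red_inc ne1 ne2]; exact hp
          have m2 : a ∈ M.filter (fun e => p ∈ (G.red u v p q r r' a b c d d').inc e) := by
            refine Finset.mem_filter.mpr ⟨haM, ?_⟩
            rw [Conf.red_inc_a]; simp
          rw [hg, Finset.mem_singleton] at m1 m2
          exact ne1 (m1.trans m2.symm)
        obtain ⟨N, hMN, hN, hNg⟩ := hC.lift hG had hbd hcF hM haM hgood
        exact ⟨N, hMN heM, hN, hNg⟩
      · unfold NoThree at h3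
        push Not at h3
        obtain ⟨X0, hX0, c1, c2, c3⟩ := h3
        -- choose the side of e0
        have hz : ∃ z, z ∈ G.A \ X0 := by
          have : (G.A \ X0).Nonempty := by rw [← Finset.card_pos]; omega
          exact this
        have hz' : ∃ z, z ∈ X0 := by
          have : X0.Nonempty := by rw [← Finset.card_pos]; omega
          exact this
        obtain ⟨z0, hz0⟩ := hz
        obtain ⟨z0', hz0'⟩ := hz'
        have hside : ∃ X ⊆ G.A, 2 ≤ X.card ∧ 2 ≤ (G.A \ X).card ∧ (G.cut X).card = 3 ∧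
            ∃ z ∈ G.A \ X, ∃ z' ∈ X, e0 ∈ (G.contract X z).D := by
          rcases mem_one hG (X := X0) (z := z0) (z' := z0') he with h | h
          · exact ⟨X0, hX0, c1, c2, c3, z0, hz0, z0', hz0', h⟩
          · refine ⟨G.A \ X0, Finset.sdiff_subset, c2, ?_, ?_, z0', ?_, z0, hz0, h⟩
            · rw [sdiff_sdiff_A hX0]; exact c1
            · rw [cut_compl hG]; exact c3
            · rw [sdiff_sdiff_A hX0]; exact hz0'
        obtain ⟨X, hX, k1, k2, k3, z, hz, z', hz', heX⟩ := hside
        have hzX : z ∉ X := (Finset.mem_sdiff.mp hz).2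
        have hzX' : z' ∉ G.A \ X := by simp [hz']
        have hc2 : G.cut (G.A \ X) = G.cut X := cut_compl hG X
        have par1 := cut_parity hG hX
        have par2 := cut_parity hG (X := G.A \ X) Finset.sdiff_subset
        rw [hc2] at par2
        have hcard := Finset.card_sdiff_of_subset hX
        have hle := Finset.card_le_card hX
        have hG1 := contract_cubic hG hX hzX k3
        have hG2 := contract_cubic hG (X := G.A \ X) (z := z') Finset.sdiff_subset hzX'
          (by rw [hc2]; exact k3)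
        have hF1 := contract_even hG hX hzX hF
        have hF2 := contract_even hG (X := G.A \ X) (z := z') Finset.sdiff_subset hzX' hF
        have hP1 : ¬ (G.contract X z).Pack (F ∩ (G.contract X z).D) := fun h =>
          hP (contract_pack hG hX hzX (by rw [Nat.odd_iff]; omega) hF.1 h)
        have hP2 : ¬ (G.contract (G.A \ X) z').Pack (F ∩ (G.contract (G.A \ X) z').D) := fun h =>
          hP (contract_pack hG Finset.sdiff_subset hzX'
            (by rw [sdiff_sdiff_A hX, Nat.odd_iff]; omega) hF.1 h)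
        have hn1 : (G.contract X z).A.card < n := by
          show (insert z X).card < n
          rw [Finset.card_insert_of_notMem hzX]; omega
        have hn2 : (G.contract (G.A \ X) z').A.card < n := by
          show (insert z' (G.A \ X)).card < n
          rw [Finset.card_insert_of_notMem hzX']; omega
        obtain ⟨M1, heM, hM1, hgood1⟩ := ih _ hn1 _ _ rfl hG1 hF1 hP1 e0 heX
        obtain ⟨g, hg⟩ := Finset.card_eq_one.mp (pm_inter_cut hG hzX hM1)
        have hgm : g ∈ M1 ∩ G.cut X := by rw [hg]; simp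
        rw [Finset.mem_inter] at hgm
        have hgD2 : g ∈ (G.contract (G.A \ X) z').D :=
          cut_sub_contract hG (by rw [hc2]; exact hgm.2)
        obtain ⟨M2, hgM, hM2, hgood2⟩ := ih _ hn2 _ _ rfl hG2 hF2 hP2 g hgD2
        refine ⟨M1 ∪ M2, Finset.mem_union_left _ heM, ?_, ?_⟩
        · exact glue_pm hG hX hzX hz' hM1 hM2 hgm.1 hgM hgm.2
        · exact glue_good hG hX hz hz' k3 hF hM1 hM2 hgood1 hgood2 hgm.1 hgM hgm.2

end Pool.Agent.Helper93.F5
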