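import Pool.Agent.Helper93.F5.Reduce

set_option autoImplicit false
open Finset

namespace Pool.Agent.Helper93.F5

variable {V E : Type} [DecidableEq V] [DecidableEq E]

open Gr

variable {G : Gr V E} {u v p q r r' : V} {a b c d d' : E}

theorem Conf.red_cubic (h : Conf G u v p q r r' a b c d d') (hG : G.Cubic)
    (h3 : ∀ X ⊆ G.A, 2 ≤ X.card → 2 ≤ (G.A \ X).card → (G.cut X).card ≠ 3) :
    (G.red u v p q r r' a b c d d').Cubic := by
  refine ⟨?_, ?_, ?_, ?_⟩
  · intro e he
    by_cases ha : e = a
    · rw [ha, Conf.red_inc_a]; exact Finset.card_pair h.pr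
    · by_cases hb : e = b
      · rw [hb, h.red_inc_b]; exact Finset.card_pair h.qr'
      · rw [Conf.red_inc ha hb]; exact hG.two e (Finset.mem_sdiff.mp he).1
  · intro e he w hw
    simp only [Gr.red, Finset.mem_sdiff, Finset.mem_insert, Finset.mem_singleton, not_or]
    by_cases ha : e = a
    · rw [ha, Conf.red_inc_a] at hw
      simp only [Finset.mem_insert, Finset.mem_singleton] at hw
      rcases hw with rfl | rfl
      · exact ⟨h.pA, h.pu, h.pv⟩
      · exact ⟨h.rA, h.ru, h.vr.symm⟩
    · by_cases hb : e = b
      · rw [hb, h.red_inc_b] at hw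
        simp only [Finset.mem_insert, Finset.mem_singleton] at hw
        rcases hw with rfl | rfl
        · exact ⟨h.qA, h.qu, h.qv⟩
        · exact ⟨h.rA', h.ru', h.vr'.symm⟩
      · rw [Conf.red_inc ha hb] at hw
        simp only [Gr.red, Finset.mem_sdiff, Finset.mem_insert, Finset.mem_singleton, not_or] at he
        have hn : e ∉ ({a, b, c, d, d'} : Finset E) := by
          simp only [Finset.mem_insert, Finset.mem_singleton, not_or]; tauto
        have h1 := h.notu he.1 hn
        have h2 := h.notv he.1 hn
        refine ⟨hG.sub e he.1 hw, ?_, ?_⟩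
        · rintro rfl; exact h1 hw
        · rintro rfl; exact h2 hw
  · intro w hw
    simp only [Gr.red, Finset.mem_sdiff, Finset.mem_insert, Finset.mem_singleton, not_or] at hw
    have := h.deg_eq (K := G.D) (Finset.Subset.refl _) (by simp [h.aD, h.dD])
      (by simp [h.bD, h.dD']) hw.2.1 hw.2.2
    rw [hG.deg w hw.1] at this
    exact this
  · intro Y hY
    exact h.red_bridge hG h3 hY

theorem Conf.red_even (h : Conf G u v p q r r' a b c d d') {F : Finset E} (hF : G.EvenSet F)
    (h1 : a ∈ F ↔ d ∈ F) (h2 : b ∈ F ↔ d' ∈ F) :
    (G.red u v p q r r' a b c d d').EvenSet (F \ {c, d, d'}) := by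
  refine ⟨Finset.sdiff_subset_sdiff hF.1 (Finset.Subset.refl _), ?_⟩
  intro w hw
  simp only [Gr.red, Finset.mem_sdiff, Finset.mem_insert, Finset.mem_singleton, not_or] at hw
  rw [h.deg_eq hF.1 h1 h2 hw.2.1 hw.2.2]
  exact hF.2 w hw.1

theorem Conf.red_pack (h : Conf G u v p q r r' a b c d d') {F : Finset E}
    (hF : F ⊆ G.D) (h1 : a ∈ F ↔ d ∈ F) (h2 : b ∈ F ↔ d' ∈ F) (h4 : ¬ (a ∈ F ∧ b ∈ F))
    (hp : (G.red u v p q r r' a b c d d').Pack (F \ {c, d, d'})) : G.Pack F := by
  obtain ⟨k, k1, k2⟩ := hp
  set w0 : V := if a ∈ F then p else q with hw0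
  refine ⟨fun w => if w = u ∨ w = v then k w0 else k w, ?_, ?_⟩
  · intro e he
    have heD := hF he
    by_cases hn : e ∈ ({a, b, c, d, d'} : Finset E)
    · simp only [Finset.mem_insert, Finset.mem_singleton] at hn
      have pu := h.pu
      have pv := h.pv
      have qu := h.qu
      have qv := h.qv
      have ru := h.ru
      have rv := h.vr.symm
      have ru' := h.ru'
      have rv' := h.vr'.symm
      have uv := h.uv
      rcases hn with rfl | rfl | rfl | rfl | rfl
      · -- a
        rw [h.ia]
        have : w0 = p := by rw [hw0, if_pos he]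
        rw [this]
        simp [pu, pv]
      · -- b
        rw [h.ib]
        have ha : a ∉ F := fun h5 => h4 ⟨h5, he⟩
        have : w0 = q := by rw [hw0, if_neg ha]
        rw [this]
        simp [qu, qv]
      · rw [h.ic]
        simp
      · -- d
        have ha : a ∈ F := h1.mpr he
        have : w0 = p := by rw [hw0, if_pos ha]
        rw [this, h.id]
        have haF : a ∈ F \ {c, e, d'} := by
          simp [ha, h.ac, h.ad, h.ad']
        have := k1 a haF p (by rw [Conf.red_inc_a]; simp) r (by rw [Conf.red_inc_a]; simp)
        simp [ru, rv, this]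
      · -- d'
        have hb : b ∈ F := h2.mpr he
        have ha : a ∉ F := fun h5 => h4 ⟨h5, hb⟩
        have : w0 = q := by rw [hw0, if_neg ha]
        rw [this, h.id']
        have hbF : b ∈ F \ {c, d, e} := by
          simp [hb, h.bc, h.bd, h.bd']
        have := k1 b hbF q (by rw [h.red_inc_b]; simp) r' (by rw [h.red_inc_b]; simp)
        simp [ru', rv', this]
    · have n1 := h.notu heD hn
      have n2 := h.notv heD hn
      simp only [Finset.mem_insert, Finset.mem_singleton, not_or] at hn
      intro x hx y hy
      have hxu : x ≠ u := by rintro rfl; exact n1 hx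
      have hxv : x ≠ v := by rintro rfl; exact n2 hx
      have hyu : y ≠ u := by rintro rfl; exact n1 hy
      have hyv : y ≠ v := by rintro rfl; exact n2 hy
      have heF : e ∈ F \ {c, d, d'} := by
        simp only [Finset.mem_sdiff, Finset.mem_insert, Finset.mem_singleton, not_or]
        exact ⟨he, hn.2.2.1, hn.2.2.2.1, hn.2.2.2.2⟩
      have := k1 e heF x (by rw [Conf.red_inc hn.1 hn.2.1]; exact hx) y
        (by rw [Conf.red_inc hn.1 hn.2.1]; exact hy)
      simp [hxu, hxv, hyu, hyv, this]
  · intro i hi
    have k3 := k2 i hi
    have e1 : G.A.filter (fun w => (if w = u ∨ w = v then k w0 else k w) = i)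
        = ((G.red u v p q r r' a b c d d').A.filter (fun w => k w = i)) ∪
          (({u, v} : Finset V).filter (fun _ => k w0 = i)) := by
      ext w
      simp only [Gr.red, Finset.mem_filter, Finset.mem_union, Finset.mem_sdiff,
        Finset.mem_insert, Finset.mem_singleton, not_or]
      by_cases hw : w = u ∨ w = v
      · have hwA : w ∈ G.A := by
          rcases hw with rfl | rfl
          · exact h.uA
          · exact h.vA
        simp only [hw, if_true, hwA, true_and]
        constructor
        · intro h5; exact Or.inr h5
        · rintro (⟨⟨h5, h6⟩, _⟩ | h5)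
          · rcases hw with h7 | h7
            · exact absurd h7 h5
            · exact absurd h7 h6
          · exact h5
      · simp only [hw, if_false, false_and, or_false]
        push Not at hw
        constructor
        · rintro ⟨h5, h6⟩; exact ⟨⟨h5, hw.1, hw.2⟩, h6⟩
        · rintro ⟨⟨h5, _⟩, h6⟩; exact ⟨h5, h6⟩
    have hdis : Disjoint ((G.red u v p q r r' a b c d d').A.filter (fun w => k w = i))
        (({u, v} : Finset V).filter (fun _ => k w0 = i)) := by
      rw [Finset.disjoint_left]
      intro w h5 h6
      simp only [Gr.red, Finset.mem_filter, Finset.mem_sdiff] at h5 h6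
      exact h5.1.2 h6.1
    rw [e1, Finset.card_union_of_disjoint hdis]
    by_cases hk : k w0 = i
    · simp only [hk]
      rw [Finset.filter_true_of_mem (fun _ _ => trivial), Finset.card_pair h.uv]
      rw [Nat.odd_iff] at *
      omega
    · simp only [hk]
      simpa using k3

/-- lifting of a good matching -/
theorem Conf.lift (h : Conf G u v p q r r' a b c d d') (hG : G.Cubic) {F : Finset E}
    (h1 : a ∈ F ↔ d ∈ F) (h2 : b ∈ F ↔ d' ∈ F) (hcF : c ∈ F)
    {M : Finset E} (hM : (G.red u v p q r r' a b c d d').PM M) (haM : a ∉ M)
    (hgood : (G.red u v p q r r' a b c d d').Good (F \ {c, d, d'}) M) :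
    ∃ N, M ⊆ N ∧ G.PM N ∧ G.Good F N := by
  have hMD : M ⊆ G.D \ {c, d, d'} := hM.1
  have hMc : c ∉ M := fun h5 => by have := Finset.mem_sdiff.mp (hMD h5); simp at this
  have hMd : d ∉ M := fun h5 => by have := Finset.mem_sdiff.mp (hMD h5); simp at this
  have hMd' : d' ∉ M := fun h5 => by have := Finset.mem_sdiff.mp (hMD h5); simp at this
  set g : E := if b ∈ M then d' else c with hgdef
  have hgM : g ∉ M := by
    rw [hgdef]; split_ifs
    · exact hMd'
    · exact hMc
  have hgD : g ∈ G.D := by
    rw [hgdef]; split_ifs
    · exact h.dD'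
    · exact h.cD
  set N : Finset E := insert g M with hN
  have hND : N ⊆ G.D := by
    intro e he
    rcases Finset.mem_insert.mp he with rfl | he
    · exact hgD
    · exact (Finset.mem_sdiff.mp (hMD he)).1
  have hNa : a ∉ N := by
    rw [hN, Finset.mem_insert, not_or]
    refine ⟨?_, haM⟩
    rw [hgdef]; split_ifs
    · exact h.ad'
    · exact h.ac
  have hNd : d ∉ N := by
    rw [hN, Finset.mem_insert, not_or]
    refine ⟨?_, hMd⟩
    rw [hgdef]; split_ifs
    · exact h.dd'
    · exact h.cd.symm
  have hNb : b ∈ N ↔ b ∈ M := by
    rw [hN, Finset.mem_insert]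
    constructor
    · rintro (h5 | h5)
      · rw [hgdef] at h5
        split_ifs at h5 with h6
        · exact h6
        · exact absurd h5 h.bc
      · exact h5
    · exact Or.inr
  have hNd' : d' ∈ N ↔ b ∈ M := by
    rw [hN, Finset.mem_insert]
    constructor
    · rintro (h5 | h5)
      · rw [hgdef] at h5
        split_ifs at h5 with h6
        · exact h6
        · exact absurd h5.symm h.cd'
      · exact absurd h5 hMd'
    · intro h5; left; rw [hgdef, if_pos h5]
  have hNc : c ∈ N ↔ b ∉ M := by
    rw [hN, Finset.mem_insert]
    constructor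
    · rintro (h5 | h5)
      · rw [hgdef] at h5
        split_ifs at h5 with h6
        · exact absurd h5 h.cd'
        · exact h6
      · exact absurd h5 hMc
    · intro h5; left; rw [hgdef, if_neg h5]
  have hNM : N \ {c, d, d'} = M := by
    ext e
    simp only [Finset.mem_sdiff, hN, Finset.mem_insert, Finset.mem_singleton, not_or]
    constructor
    · rintro ⟨h5 | h5, h6⟩
      · exfalso
        rw [hgdef] at h5
        split_ifs at h5
        · exact h6.2.2 h5
        · exact h6.1 h5
      · exact h5
    · intro h5
      refine ⟨Or.inr h5, ?_, ?_, ?_⟩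
      · rintro rfl; exact hMc h5
      · rintro rfl; exact hMd h5
      · rintro rfl; exact hMd' h5
  have hrest : ∀ e, e ∉ ({a, b, c, d, d'} : Finset E) → (e ∈ N ↔ e ∈ M) := by
    intro e he
    simp only [Finset.mem_insert, Finset.mem_singleton, not_or] at he
    rw [← hNM]
    simp only [Finset.mem_sdiff, Finset.mem_insert, Finset.mem_singleton, not_or]
    exact ⟨fun h5 => ⟨h5, he.2.2.1, he.2.2.2.1, he.2.2.2.2⟩, fun h5 => h5.1⟩
  refine ⟨N, Finset.subset_insert _ _, ⟨hND, ?_⟩, ?_⟩
  · intro w hw
    by_cases hwu : w = u
    · subst hwu
      have e1 : N.filter (fun e => w ∈ G.inc e) = ({a, b, c} : Finset E).filter (fun e => e ∈ N) := by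
        rw [← h.hu]
        ext e; simp only [Finset.mem_filter]
        constructor
        · rintro ⟨h5, h6⟩; exact ⟨⟨hND h5, h6⟩, h5⟩
        · rintro ⟨⟨_, h6⟩, h5⟩; exact ⟨h5, h6⟩
      rw [e1]
      by_cases hb : b ∈ M
      · have : ({a, b, c} : Finset E).filter (fun e => e ∈ N) = {b} := by
          ext e
          simp only [Finset.mem_filter, Finset.mem_insert, Finset.mem_singleton]
          constructor
          · rintro ⟨rfl | rfl | rfl, h6⟩
            · exact absurd h6 hNa
            · rfl
            · exact absurd hb (hNc.mp h6)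
          · rintro rfl; exact ⟨by simp, hNb.mpr hb⟩
        rw [this, Finset.card_singleton]
      · have : ({a, b, c} : Finset E).filter (fun e => e ∈ N) = {c} := by
          ext e
          simp only [Finset.mem_filter, Finset.mem_insert, Finset.mem_singleton]
          constructor
          · rintro ⟨rfl | rfl | rfl, h6⟩
            · exact absurd h6 hNa
            · exact absurd (hNb.mp h6) hb
            · rfl
          · rintro rfl; exact ⟨by simp, hNc.mpr hb⟩
        rw [this, Finset.card_singleton]
    · by_cases hwv : w = v
      · subst hwv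
        have e1 : N.filter (fun e => w ∈ G.inc e)
            = ({c, d, d'} : Finset E).filter (fun e => e ∈ N) := by
          rw [← h.hv]
          ext e; simp only [Finset.mem_filter]
          constructor
          · rintro ⟨h5, h6⟩; exact ⟨⟨hND h5, h6⟩, h5⟩
          · rintro ⟨⟨_, h6⟩, h5⟩; exact ⟨h5, h6⟩
        rw [e1]
        by_cases hb : b ∈ M
        · have : ({c, d, d'} : Finset E).filter (fun e => e ∈ N) = {d'} := by
            ext e
            simp only [Finset.mem_filter, Finset.mem_insert, Finset.mem_singleton]
            constructor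
            · rintro ⟨rfl | rfl | rfl, h6⟩
              · exact absurd hb (hNc.mp h6)
              · exact absurd h6 hNd
              · rfl
            · rintro rfl; exact ⟨by simp, hNd'.mpr hb⟩
          rw [this, Finset.card_singleton]
        · have : ({c, d, d'} : Finset E).filter (fun e => e ∈ N) = {c} := by
            ext e
            simp only [Finset.mem_filter, Finset.mem_insert, Finset.mem_singleton]
            constructor
            · rintro ⟨rfl | rfl | rfl, h6⟩
              · rfl
              · exact absurd h6 hNd
              · exact absurd (hNd'.mp h6) hb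
            · rintro rfl; exact ⟨by simp, hNc.mpr hb⟩
          rw [this, Finset.card_singleton]
      · have := h.deg_eq (K := N) hND (by simp [hNa, hNd]) (by rw [hNb, hNd']) hwu hwv
        rw [hNM] at this
        rw [← this]
        exact hM.2 w (by simp [Gr.red, hw, hwu, hwv])
  · -- goodness
    intro Y hY hYc
    have hcY : c ∉ G.cut Y := fun h5 => (Finset.mem_sdiff.mp (hYc h5)).2 hcF
    rw [mem_cut h.uv h.ic] at hcY
    have huv : u ∈ Y ↔ v ∈ Y := by
      by_contra h5; exact hcY ⟨h.cD, h5⟩
    have haY : a ∉ G.cut Y := fun h5 => hNa (Finset.mem_sdiff.mp (hYc h5)).1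
    rw [mem_cut h.pu h.ia] at haY
    have hpu : p ∈ Y ↔ u ∈ Y := by
      by_contra h5; exact haY ⟨h.aD, h5⟩
    have hdY : d ∉ G.cut Y := fun h5 => hNd (Finset.mem_sdiff.mp (hYc h5)).1
    rw [mem_cut h.vr h.id] at hdY
    have hvr : v ∈ Y ↔ r ∈ Y := by
      by_contra h5; exact hdY ⟨h.dD, h5⟩
    have hkey : Even (Y \ {u, v}).card := by
      apply hgood
      · exact Finset.sdiff_subset_sdiff hY (Finset.Subset.refl _)
      · intro e he
        have heD' : e ∈ G.D \ {c, d, d'} := cut_sub _ _ he
        have heD'' := Finset.mem_sdiff.mp heD'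
        by_cases ha : e = a
        · exfalso
          subst ha
          rw [mem_cut h.pr Conf.red_inc_a] at he
          apply he.2
          simp only [Finset.mem_sdiff, Finset.mem_insert, Finset.mem_singleton, h.pu, h.pv, h.ru,
            h.vr.symm, or_self, not_false_iff, and_true]
          rw [hpu, huv, hvr]
        · by_cases hb : e = b
          · subst hb
            rw [mem_cut h.qr' h.red_inc_b] at he
            have he2 := he.2
            simp only [Finset.mem_sdiff, Finset.mem_insert, Finset.mem_singleton, h.qu, h.qv, h.ru',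
              h.vr'.symm, or_self, not_false_iff, and_true] at he2
            have hor : e ∈ G.cut Y ∨ d' ∈ G.cut Y := by
              rw [mem_cut h.qu h.ib, mem_cut h.vr' h.id']
              by_contra h5
              rw [not_or, not_and, not_and, not_not, not_not] at h5
              exact he2 ((h5.1 h.bD).trans (huv.trans (h5.2 h.dD')))
            rcases hor with h5 | h5
            · have h6 := Finset.mem_sdiff.mp (hYc h5)
              refine Finset.mem_sdiff.mpr ⟨hNb.mp h6.1, fun h7 => h6.2 (Finset.mem_sdiff.mp h7).1⟩
            · have h6 := Finset.mem_sdiff.mp (hYc h5)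
              refine Finset.mem_sdiff.mpr ⟨hNd'.mp h6.1, fun h7 => h6.2 (h2.mp (Finset.mem_sdiff.mp h7).1)⟩
          · have hn : e ∉ ({a, b, c, d, d'} : Finset E) := by
              intro h5
              apply heD''.2
              simp only [Finset.mem_insert, Finset.mem_singleton] at h5 ⊢
              rcases h5 with h5 | h5 | h5 | h5 | h5
              · exact absurd h5 ha
              · exact absurd h5 hb
              · exact Or.inl h5
              · exact Or.inr (Or.inl h5)
              · exact Or.inr (Or.inr h5)
            obtain ⟨x, y, hxy, hi, hx, hy⟩ := ends hG heD''.1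
            have n1 := h.notu heD''.1 hn
            have n2 := h.notv heD''.1 hn
            rw [mem_cut hxy (by rw [Conf.red_inc ha hb]; exact hi)] at he
            have he2 : e ∈ G.cut Y := by
              rw [mem_cut hxy hi]
              refine ⟨heD''.1, ?_⟩
              rw [hi] at n1 n2
              simp only [Finset.mem_insert, Finset.mem_singleton, not_or] at n1 n2
              have := he.2
              simp only [Finset.mem_sdiff, Finset.mem_insert, Finset.mem_singleton,
                Ne.symm n1.1, Ne.symm n1.2, Ne.symm n2.1, Ne.symm n2.2, or_self,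
                not_false_iff, and_true] at this
              exact this
            have h6 := Finset.mem_sdiff.mp (hYc he2)
            refine Finset.mem_sdiff.mpr ⟨(hrest e hn).mp h6.1, fun h7 => h6.2 (Finset.mem_sdiff.mp h7).1⟩
    by_cases huY : u ∈ Y
    · have hvY := huv.mp huY
      have hsub : ({u, v} : Finset V) ⊆ Y := by
        intro w hw
        simp only [Finset.mem_insert, Finset.mem_singleton] at hw
        rcases hw with rfl | rfl <;> assumption
      rw [Finset.card_sdiff_of_subset hsub, Finset.card_pair h.uv] at hkey
      have := Finset.card_le_card hsub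
      rw [Finset.card_pair h.uv] at this
      rw [Nat.even_iff] at *
      omega
    · have hvY : v ∉ Y := fun h5 => huY (huv.mpr h5)
      have : Y \ {u, v} = Y := by
        apply Finset.sdiff_eq_self_of_disjoint
        rw [Finset.disjoint_right]
        intro w hw
        simp only [Finset.mem_insert, Finset.mem_singleton] at hw
        rcases hw with rfl | rfl <;> assumption
      rwa [this] at hkey

end Pool.Agent.Helper93.F5
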