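import Pool.Agent.Helper93.F5.Lift

set_option autoImplicit false
open Finset

namespace Pool.Agent.Helper93.F5

variable {V E : Type} [DecidableEq V] [DecidableEq E]

open Gr

/-! ### small graphs -/

theorem no_single {G : Gr V E} (hG : G.Cubic) {M F : Finset E} (hM : G.PM M) {v : V}
    (hv : v ∈ G.A) (h : G.cut {v} ⊆ M \ F) : False := by
  rw [cut_singleton hG] at h
  have h1 : G.D.filter (fun e => v ∈ G.inc e) ⊆ M.filter (fun e => v ∈ G.inc e) := by
    intro e he
    exact Finset.mem_filter.mpr ⟨(Finset.mem_sdiff.mp (h he)).1, (Finset.mem_filter.mp he).2⟩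
  have := Finset.card_le_card h1
  rw [hG.deg v hv, hM.2 v hv] at this
  omega

theorem good_small {G : Gr V E} (hG : G.Cubic) {M F : Finset E} (hM : G.PM M)
    (hn : G.A.card ≤ 4) : G.Good F M := by
  intro Y hY hc
  by_contra hodd
  rw [Nat.not_even_iff_odd, Nat.odd_iff] at hodd
  have h1 := Finset.card_le_card hY
  have h2 := even_card hG
  rw [Nat.even_iff] at h2
  have h3 : Y.card = 1 ∨ (G.A \ Y).card = 1 := by
    rw [Finset.card_sdiff_of_subset hY]; omega
  rcases h3 with h3 | h3
  · obtain ⟨v, rfl⟩ := Finset.card_eq_one.mp h3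
    exact no_single hG hM (hY (by simp)) hc
  · obtain ⟨v, hv⟩ := Finset.card_eq_one.mp h3
    have hvA : v ∈ G.A := by
      have : v ∈ G.A \ Y := by rw [hv]; simp
      exact (Finset.mem_sdiff.mp this).1
    apply no_single hG hM hvA (F := F)
    rw [← hv, cut_compl hG]
    exact hc

theorem delta_card {G : Gr V E} (hG : G.Cubic) {v : V} (hv : v ∈ G.A) {s : Finset E}
    (hs : ∀ e ∈ s, e ∈ G.D ∧ v ∈ G.inc e) :
    (G.D.filter (fun e => v ∈ G.inc e) \ s).card + s.card = 3 := by
  have hsub : s ⊆ G.D.filter (fun e => v ∈ G.inc e) := by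
    intro e he; exact Finset.mem_filter.mpr (hs e he)
  rw [Finset.card_sdiff_add_card_eq_card hsub, hG.deg v hv]

theorem base {G : Gr V E} (hG : G.Cubic) {F : Finset E} (hn : G.A.card ≤ 4) {e0 : E}
    (he : e0 ∈ G.D) : ∃ M, e0 ∈ M ∧ G.PM M ∧ G.Good F M := by
  obtain ⟨x, y, hxy, hi, hx, hy⟩ := ends hG he
  have hsub : ({x, y} : Finset V) ⊆ G.A := by
    intro w hw
    simp only [Finset.mem_insert, Finset.mem_singleton] at hw
    rcases hw with rfl | rfl <;> assumption
  have hc := Finset.card_le_card hsub
  rw [Finset.card_pair hxy] at hc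
  have h2 := even_card hG
  rw [Nat.even_iff] at h2
  have h3 : G.A.card = 2 ∨ G.A.card = 4 := by omega
  suffices h : ∃ M, e0 ∈ M ∧ G.PM M by
    obtain ⟨M, h4, h5⟩ := h
    exact ⟨M, h4, h5, good_small hG h5 hn⟩
  rcases h3 with h3 | h3
  · have hA : ({x, y} : Finset V) = G.A :=
      Finset.eq_of_subset_of_card_le hsub (by rw [h3, Finset.card_pair hxy])
    refine ⟨{e0}, by simp, by simpa using he, ?_⟩
    intro v hv
    rw [← hA, ← hi] at hv
    rw [Finset.filter_true_of_mem (by intro e he; rw [Finset.mem_singleton] at he; rw [he]; exact hv)]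
    simp
  · have h4 : (G.A \ {x, y}).card = 2 := by
      rw [Finset.card_sdiff_of_subset hsub, h3, Finset.card_pair hxy]
    obtain ⟨z, w, hzw, hZ⟩ := Finset.card_eq_two.mp h4
    have hz : z ∈ G.A \ {x, y} := by rw [hZ]; simp
    have hw : w ∈ G.A \ {x, y} := by rw [hZ]; simp
    simp only [Finset.mem_sdiff, Finset.mem_insert, Finset.mem_singleton, not_or] at hz hw
    have hex : ∃ e1 ∈ G.D, G.inc e1 = {z, w} := by
      by_contra hno
      push Not at hno
      have hzw' : ∀ e ∈ G.D, z ∈ G.inc e → w ∉ G.inc e := by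
        intro e heD h5 h6
        apply hno e heD
        symm
        apply Finset.eq_of_subset_of_card_le
        · intro t ht
          simp only [Finset.mem_insert, Finset.mem_singleton] at ht
          rcases ht with rfl | rfl <;> assumption
        · rw [hG.two e heD, Finset.card_pair hzw]
      have hcut1 : G.D.filter (fun e => z ∈ G.inc e) ∪ G.D.filter (fun e => w ∈ G.inc e)
          ⊆ G.cut {x, y} := by
        rw [← cut_compl hG, hZ]
        intro e he'
        rcases Finset.mem_union.mp he' with h5 | h5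
        · have h6 := Finset.mem_filter.mp h5
          obtain ⟨t, ht, hit⟩ := other_end h6.2 (hG.two e h6.1)
          rw [mem_cut ht hit]
          have h7 := hzw' e h6.1 h6.2
          rw [hit] at h7
          simp only [Finset.mem_insert, Finset.mem_singleton, not_or] at h7
          simp [h6.1, ht.symm, Ne.symm h7.2]
        · have h6 := Finset.mem_filter.mp h5
          obtain ⟨t, ht, hit⟩ := other_end h6.2 (hG.two e h6.1)
          rw [mem_cut ht hit]
          have h7 : z ∉ G.inc e := fun h8 => hzw' e h6.1 h8 h6.2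
          rw [hit] at h7
          simp only [Finset.mem_insert, Finset.mem_singleton, not_or] at h7
          simp [h6.1, ht.symm, Ne.symm h7.2]
      have hcut2 : G.cut {x, y} ⊆ (G.D.filter (fun e => x ∈ G.inc e) \ {e0})
          ∪ (G.D.filter (fun e => y ∈ G.inc e) \ {e0}) := by
        intro e he'
        have heD := cut_sub _ _ he'
        have hne : e ≠ e0 := by
          rintro rfl
          rw [mem_cut hxy hi] at he'
          exact he'.2 (by simp)
        obtain ⟨s, t, hst, hit, _, _⟩ := ends hG heD
        rw [mem_cut hst hit] at he'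
        simp only [Finset.mem_union, Finset.mem_sdiff, Finset.mem_filter, Finset.mem_singleton,
          hit, Finset.mem_insert, heD, true_and, hne, not_false_iff, and_true]
        have h5 := he'.2
        simp only [Finset.mem_insert, Finset.mem_singleton] at h5
        tauto
      have c1 := Finset.card_le_card hcut1
      rw [Finset.card_union_of_disjoint, hG.deg z hz.1, hG.deg w hw.1] at c1
      · have c2 := Finset.card_le_card hcut2
        have c3 := Finset.card_union_le (G.D.filter (fun e => x ∈ G.inc e) \ {e0})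
          (G.D.filter (fun e => y ∈ G.inc e) \ {e0})
        have c4 := delta_card hG hx (s := {e0}) (by
          intro e he'; rw [Finset.mem_singleton] at he'; rw [he', hi]; exact ⟨he, by simp⟩)
        have c5 := delta_card hG hy (s := {e0}) (by
          intro e he'; rw [Finset.mem_singleton] at he'; rw [he', hi]; exact ⟨he, by simp⟩)
        rw [Finset.card_singleton] at c4 c5
        omega
      · rw [Finset.disjoint_left]
        intro e h5 h6
        simp only [Finset.mem_filter] at h5 h6
        exact hzw' e h5.1 h5.2 h6.2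
    obtain ⟨e1, he1, hi1⟩ := hex
    refine ⟨{e0, e1}, by simp, ?_, ?_⟩
    · intro e he'
      simp only [Finset.mem_insert, Finset.mem_singleton] at he'
      rcases he' with rfl | rfl <;> assumption
    · intro v hv
      by_cases hvx : v ∈ ({x, y} : Finset V)
      · have hv0 : v ∈ G.inc e0 := by rw [hi]; exact hvx
        have hv1 : v ∉ G.inc e1 := by
          rw [hi1, ← hZ]; simp only [Finset.mem_sdiff, not_and, not_not]; intro _; exact hvx
        rw [Finset.filter_insert, if_pos hv0, Finset.filter_singleton, if_neg hv1]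
        simp
      · have hv0 : v ∉ G.inc e0 := by rw [hi]; exact hvx
        have hv1 : v ∈ G.inc e1 := by
          rw [hi1, ← hZ]; exact Finset.mem_sdiff.mpr ⟨hv, hvx⟩
        rw [Finset.filter_insert, if_neg hv0, Finset.filter_singleton, if_pos hv1]
        simp

/-! ### graphs without small cuts -/

theorem cut_erase {G : Gr V E} (hG : G.Cubic) {X : Finset V} {x : V} (hx : x ∈ X) :
    G.cut (X.erase x) = (G.cut X \ G.D.filter (fun e => x ∈ G.inc e)) ∪
      (G.D.filter (fun e => x ∈ G.inc e) \ G.cut X) := by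
  ext e
  by_cases he : e ∈ G.D
  · obtain ⟨s, t, hst, hi, _, _⟩ := ends hG he
    simp only [Finset.mem_union, Finset.mem_sdiff, Finset.mem_filter, he, true_and]
    rw [mem_cut hst hi, mem_cut hst hi, hi]
    simp only [Finset.mem_insert, Finset.mem_singleton, he, true_and, Finset.mem_erase]
    by_cases h1 : s = x
    · subst h1
      have h2 : t ≠ s := hst.symm
      simp [hx, h2]
    · by_cases h2 : t = x
      · subst h2
        simp [hx, h1]
      · simp [Ne.symm h1, Ne.symm h2, h1, h2]
  · constructor
    · intro h; exact absurd (cut_sub _ _ h) he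
    · intro h
      rcases Finset.mem_union.mp h with h | h
      · exact absurd (cut_sub _ _ (Finset.mem_sdiff.mp h).1) he
      · exact absurd (Finset.mem_filter.mp (Finset.mem_sdiff.mp h).1).1 he

theorem card_cut_erase {G : Gr V E} (hG : G.Cubic) {X : Finset V} (hX : X ⊆ G.A) {x : V}
    (hx : x ∈ X) : (G.cut (X.erase x)).card
      + 2 * (G.cut X ∩ G.D.filter (fun e => x ∈ G.inc e)).card = (G.cut X).card + 3 := by
  rw [cut_erase hG hx, Finset.card_union_of_disjoint]
  · have h1 := Finset.card_sdiff_add_card_inter (G.cut X) (G.D.filter (fun e => x ∈ G.inc e))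
    have h2 := Finset.card_sdiff_add_card_inter (G.D.filter (fun e => x ∈ G.inc e)) (G.cut X)
    rw [Finset.inter_comm, hG.deg x (hX hx)] at h2
    omega
  · rw [Finset.disjoint_left]
    intro e h1 h2
    exact (Finset.mem_sdiff.mp h1).2 (Finset.mem_sdiff.mp h2).1

/-- no cut of size three except the trivial ones -/
def NoThree (G : Gr V E) : Prop :=
  ∀ X ⊆ G.A, 2 ≤ X.card → 2 ≤ (G.A \ X).card → (G.cut X).card ≠ 3

theorem big_cut_aux {G : Gr V E} (hG : G.Cubic) (h3 : NoThree G) {X : Finset V} (hX : X ⊆ G.A)
    (h1 : 3 ≤ X.card) (h2 : 1 ≤ (G.A \ X).card) : 3 ≤ (G.cut X).card := by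
  by_contra hlt
  push Not at hlt
  have hne1 := hG.bridge X hX
  have key : ∃ x ∈ X, (G.cut X).card ≤ 2 * (G.cut X ∩ G.D.filter (fun e => x ∈ G.inc e)).card := by
    by_cases h0 : (G.cut X).card = 0
    · obtain ⟨x, hx⟩ : X.Nonempty := by rw [← Finset.card_pos]; omega
      exact ⟨x, hx, by omega⟩
    · obtain ⟨e, he⟩ : (G.cut X).Nonempty := by rw [← Finset.card_pos]; omega
      have heD := cut_sub _ _ he
      obtain ⟨s, t, hst, hi, _, _⟩ := ends hG heD
      have he2 := he
      rw [mem_cut hst hi] at he2
      have : ∃ x ∈ X, x ∈ G.inc e := by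
        by_cases hs : s ∈ X
        · exact ⟨s, hs, by rw [hi]; simp⟩
        · by_cases ht : t ∈ X
          · exact ⟨t, ht, by rw [hi]; simp⟩
          · exact absurd (iff_of_false hs ht) he2.2
      obtain ⟨x, hx, hxe⟩ := this
      refine ⟨x, hx, ?_⟩
      have : 1 ≤ (G.cut X ∩ G.D.filter (fun e => x ∈ G.inc e)).card := by
        rw [Nat.one_le_iff_ne_zero, ← Nat.pos_iff_ne_zero, Finset.card_pos]
        exact ⟨e, Finset.mem_inter.mpr ⟨he, Finset.mem_filter.mpr ⟨heD, hxe⟩⟩⟩
      omega
  obtain ⟨x, hx, hk⟩ := key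
  have hc := card_cut_erase hG hX hx
  have hXe : X.erase x ⊆ G.A := (Finset.erase_subset _ _).trans hX
  have hb := hG.bridge _ hXe
  have hcard : (X.erase x).card = X.card - 1 := Finset.card_erase_of_mem hx
  have hcompl : 2 ≤ (G.A \ X.erase x).card := by
    rw [Finset.card_sdiff_of_subset hXe, hcard]
    rw [Finset.card_sdiff_of_subset hX] at h2
    have := Finset.card_le_card hX
    omega
  have := h3 _ hXe (by omega) hcompl
  omega

theorem big_cut {G : Gr V E} (hG : G.Cubic) (h3 : NoThree G) (hn : 5 ≤ G.A.card)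
    {X : Finset V} (hX : X ⊆ G.A) (h1 : 2 ≤ X.card) (h2 : 2 ≤ (G.A \ X).card) :
    4 ≤ (G.cut X).card := by
  have hne := h3 X hX h1 h2
  suffices h : 3 ≤ (G.cut X).card by omega
  by_cases h4 : 3 ≤ X.card
  · exact big_cut_aux hG h3 hX h4 (by omega)
  · rw [← cut_compl hG]
    have hc := Finset.card_sdiff_of_subset hX
    apply big_cut_aux hG h3 Finset.sdiff_subset
    · omega
    · rw [sdiff_sdiff_A hX]; omega

theorem simple {G : Gr V E} (hG : G.Cubic) (h3 : NoThree G) (hn : 5 ≤ G.A.card) {e f : E}
    (he : e ∈ G.D) (hf : f ∈ G.D) (hi : G.inc e = G.inc f) : e = f := by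
  by_contra hne
  obtain ⟨x, y, hxy, hix, hx, hy⟩ := ends hG he
  have hif : G.inc f = {x, y} := by rw [← hi, hix]
  have hsub : ({x, y} : Finset V) ⊆ G.A := by
    intro w hw
    simp only [Finset.mem_insert, Finset.mem_singleton] at hw
    rcases hw with rfl | rfl <;> assumption
  have hc := big_cut hG h3 hn hsub (by rw [Finset.card_pair hxy])
    (by rw [Finset.card_sdiff_of_subset hsub, Finset.card_pair hxy]; omega)
  have hcut : G.cut {x, y} ⊆ (G.D.filter (fun e => x ∈ G.inc e) \ {e, f})
      ∪ (G.D.filter (fun e => y ∈ G.inc e) \ {e, f}) := by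
    intro g hg
    have hgD := cut_sub _ _ hg
    have hge : g ≠ e := by
      rintro rfl
      rw [mem_cut hxy hix] at hg
      exact hg.2 (by simp)
    have hgf : g ≠ f := by
      rintro rfl
      rw [mem_cut hxy hif] at hg
      exact hg.2 (by simp)
    obtain ⟨s, t, hst, hit, _, _⟩ := ends hG hgD
    rw [mem_cut hst hit] at hg
    simp only [Finset.mem_union, Finset.mem_sdiff, Finset.mem_filter, Finset.mem_singleton,
      hit, Finset.mem_insert, hgD, true_and, hge, hgf, or_self, not_false_iff, and_true]
    have h5 := hg.2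
    simp only [Finset.mem_insert, Finset.mem_singleton] at h5
    tauto
  have c1 := delta_card hG hx (s := {e, f}) (by
    intro g hg
    simp only [Finset.mem_insert, Finset.mem_singleton] at hg
    rcases hg with rfl | rfl
    · rw [hix]; exact ⟨he, by simp⟩
    · rw [hif]; exact ⟨hf, by simp⟩)
  have c2 := delta_card hG hy (s := {e, f}) (by
    intro g hg
    simp only [Finset.mem_insert, Finset.mem_singleton] at hg
    rcases hg with rfl | rfl
    · rw [hix]; exact ⟨he, by simp⟩
    · rw [hif]; exact ⟨hf, by simp⟩)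
  have c3 := Finset.card_le_card hcut
  have c4 := Finset.card_union_le (G.D.filter (fun e => x ∈ G.inc e) \ {e, f})
    (G.D.filter (fun e => y ∈ G.inc e) \ {e, f})
  rw [Finset.card_pair hne] at c1 c2
  omega

theorem no_triangle {G : Gr V E} (hG : G.Cubic) (h3 : NoThree G) (hn : 5 ≤ G.A.card)
    {e f g : E} {x y z : V} (he : e ∈ G.D) (hf : f ∈ G.D) (hg : g ∈ G.D) (hxy : x ≠ y)
    (hyz : y ≠ z) (hxz : x ≠ z) (ie : G.inc e = {x, y}) (jf : G.inc f = {y, z})
    (ig : G.inc g = {x, z}) : False := by
  have hx : x ∈ G.A := hG.sub e he (by rw [ie]; simp)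
  have hy : y ∈ G.A := hG.sub e he (by rw [ie]; simp)
  have hz : z ∈ G.A := hG.sub f hf (by rw [jf]; simp)
  have hef : e ≠ f := by
    rintro rfl
    have : x ∈ G.inc e := by rw [ie]; simp
    rw [jf] at this
    simp only [Finset.mem_insert, Finset.mem_singleton] at this
    rcases this with h | h
    · exact hxy h
    · exact hxz h
  have heg : e ≠ g := by
    rintro rfl
    have : y ∈ G.inc e := by rw [ie]; simp
    rw [ig] at this
    simp only [Finset.mem_insert, Finset.mem_singleton] at this
    rcases this with h | h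
    · exact hxy h.symm
    · exact hyz h
  have hfg : f ≠ g := by
    rintro rfl
    have : y ∈ G.inc f := by rw [jf]; simp
    rw [ig] at this
    simp only [Finset.mem_insert, Finset.mem_singleton] at this
    rcases this with h | h
    · exact hxy h.symm
    · exact hyz h
  have hsub : ({x, y, z} : Finset V) ⊆ G.A := by
    intro w hw
    simp only [Finset.mem_insert, Finset.mem_singleton] at hw
    rcases hw with rfl | rfl | rfl <;> assumption
  have hcard : ({x, y, z} : Finset V).card = 3 := by
    rw [Finset.card_insert_of_notMem (by simp [hxy, hxz]), Finset.card_pair hyz]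
  have hc := big_cut hG h3 hn hsub (by rw [hcard]; omega)
    (by rw [Finset.card_sdiff_of_subset hsub, hcard]; omega)
  have hcut : G.cut {x, y, z} ⊆ (G.D.filter (fun e => x ∈ G.inc e) \ {e, g})
      ∪ ((G.D.filter (fun e => y ∈ G.inc e) \ {e, f})
        ∪ (G.D.filter (fun e => z ∈ G.inc e) \ {f, g})) := by
    intro k hk
    have hkD := cut_sub _ _ hk
    have hke : k ≠ e := by
      rintro rfl
      rw [mem_cut hxy ie] at hk
      exact hk.2 (by simp)
    have hkf : k ≠ f := by
      rintro rfl
      rw [mem_cut hyz jf] at hk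
      exact hk.2 (by simp)
    have hkg : k ≠ g := by
      rintro rfl
      rw [mem_cut hxz ig] at hk
      exact hk.2 (by simp)
    obtain ⟨s, t, hst, hit, _, _⟩ := ends hG hkD
    rw [mem_cut hst hit] at hk
    simp only [Finset.mem_union, Finset.mem_sdiff, Finset.mem_filter, Finset.mem_singleton,
      hit, Finset.mem_insert, hkD, true_and, hke, hkf, hkg, or_self, not_false_iff, and_true]
    have h5 := hk.2
    simp only [Finset.mem_insert, Finset.mem_singleton] at h5
    by_contra h6
    rw [not_or, not_or, not_or, not_or, not_or] at h6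
    obtain ⟨⟨a1, a2⟩, ⟨a3, a4⟩, ⟨a5, a6⟩⟩ := h6
    exact h5 (iff_of_false (by rintro (h | h | h); exacts [a1 h.symm, a3 h.symm, a5 h.symm])
      (by rintro (h | h | h); exacts [a2 h.symm, a4 h.symm, a6 h.symm]))
  have c1 := delta_card hG hx (s := {e, g}) (by
    intro k hk
    simp only [Finset.mem_insert, Finset.mem_singleton] at hk
    rcases hk with rfl | rfl
    · rw [ie]; exact ⟨he, by simp⟩
    · rw [ig]; exact ⟨hg, by simp⟩)
  have c2 := delta_card hG hy (s := {e, f}) (by
    intro k hk
    simp only [Finset.mem_insert, Finset.mem_singleton] at hk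
    rcases hk with rfl | rfl
    · rw [ie]; exact ⟨he, by simp⟩
    · rw [jf]; exact ⟨hf, by simp⟩)
  have c3 := delta_card hG hz (s := {f, g}) (by
    intro k hk
    simp only [Finset.mem_insert, Finset.mem_singleton] at hk
    rcases hk with rfl | rfl
    · rw [jf]; exact ⟨hf, by simp⟩
    · rw [ig]; exact ⟨hg, by simp⟩)
  have c4 := Finset.card_le_card hcut
  have c5 := Finset.card_union_le (G.D.filter (fun e => x ∈ G.inc e) \ {e, g})
    ((G.D.filter (fun e => y ∈ G.inc e) \ {e, f}) ∪ (G.D.filter (fun e => z ∈ G.inc e) \ {f, g}))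
  have c6 := Finset.card_union_le (G.D.filter (fun e => y ∈ G.inc e) \ {e, f})
    (G.D.filter (fun e => z ∈ G.inc e) \ {f, g})
  rw [Finset.card_pair heg] at c1
  rw [Finset.card_pair hef] at c2
  rw [Finset.card_pair hfg] at c3
  omega

end Pool.Agent.Helper93.F5
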