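import Pool.Agent.Helper93.F5.Glue

set_option autoImplicit false
open Finset

namespace Pool.Agent.Helper93.F5

variable {V E : Type} [DecidableEq V] [DecidableEq E]

open Gr

theorem ite_pair {x y : V} (hxy : x ≠ y) (X : Finset V) :
    (if (({x, y} : Finset V) ∩ X).card = 1 then 1 else 0 : ℕ) = if (x ∈ X ↔ y ∈ X) then 0 else 1 := by
  have := inter_pair_card hxy X
  by_cases h : (x ∈ X ↔ y ∈ X)
  · rw [if_neg (by rw [this]; exact fun h' => h' h), if_pos h]
  · rw [if_pos (by rw [this]; exact h), if_neg h]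

/-- the local picture: an edge `c = uv`, the other edges `a, b` at `u` and `d, d'` at `v` -/
structure Conf (G : Gr V E) (u v p q r r' : V) (a b c d d' : E) : Prop where
  hu : G.D.filter (fun e => u ∈ G.inc e) = {a, b, c}
  hv : G.D.filter (fun e => v ∈ G.inc e) = {c, d, d'}
  ab : a ≠ b
  ac : a ≠ c
  bc : b ≠ c
  cd : c ≠ d
  cd' : c ≠ d'
  dd' : d ≠ d'
  ia : G.inc a = {p, u}
  ib : G.inc b = {q, u}
  ic : G.inc c = {u, v}
  id : G.inc d = {v, r}
  id' : G.inc d' = {v, r'}
  pu : p ≠ u
  qu : q ≠ u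
  uv : u ≠ v
  vr : v ≠ r
  vr' : v ≠ r'
  pv : p ≠ v
  qv : q ≠ v
  ru : r ≠ u
  ru' : r' ≠ u
  pr : p ≠ r
  qr' : q ≠ r'
  uA : u ∈ G.A
  vA : v ∈ G.A
  pA : p ∈ G.A
  qA : q ∈ G.A
  rA : r ∈ G.A
  rA' : r' ∈ G.A

/-- remove `u`, `v` and join the edges `a, d` and `b, d'` (keeping the names `a`, `b`) -/
def Gr.red (G : Gr V E) (u v p q r r' : V) (a b c d d' : E) : Gr V E where
  A := G.A \ {u, v}
  D := G.D \ {c, d, d'}
  inc := fun e => if e = a then {p, r} else if e = b then {q, r'} else G.inc e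

section
variable {G : Gr V E} {u v p q r r' : V} {a b c d d' : E}

theorem Conf.aD (h : Conf G u v p q r r' a b c d d') : a ∈ G.D := by
  have : a ∈ G.D.filter (fun e => u ∈ G.inc e) := by rw [h.hu]; simp
  exact (Finset.mem_filter.mp this).1

theorem Conf.bD (h : Conf G u v p q r r' a b c d d') : b ∈ G.D := by
  have : b ∈ G.D.filter (fun e => u ∈ G.inc e) := by rw [h.hu]; simp
  exact (Finset.mem_filter.mp this).1

theorem Conf.cD (h : Conf G u v p q r r' a b c d d') : c ∈ G.D := by
  have : c ∈ G.D.filter (fun e => u ∈ G.inc e) := by rw [h.hu]; simp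
  exact (Finset.mem_filter.mp this).1

theorem Conf.dD (h : Conf G u v p q r r' a b c d d') : d ∈ G.D := by
  have : d ∈ G.D.filter (fun e => v ∈ G.inc e) := by rw [h.hv]; simp
  exact (Finset.mem_filter.mp this).1

theorem Conf.dD' (h : Conf G u v p q r r' a b c d d') : d' ∈ G.D := by
  have : d' ∈ G.D.filter (fun e => v ∈ G.inc e) := by rw [h.hv]; simp
  exact (Finset.mem_filter.mp this).1

theorem Conf.ad (h : Conf G u v p q r r' a b c d d') : a ≠ d := by
  intro e
  have h1 : u ∈ G.inc d := by rw [← e, h.ia]; simp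
  rw [h.id] at h1
  simp only [Finset.mem_insert, Finset.mem_singleton] at h1
  rcases h1 with h1 | h1
  · exact h.uv h1
  · exact h.ru h1.symm

theorem Conf.ad' (h : Conf G u v p q r r' a b c d d') : a ≠ d' := by
  intro e
  have h1 : u ∈ G.inc d' := by rw [← e, h.ia]; simp
  rw [h.id'] at h1
  simp only [Finset.mem_insert, Finset.mem_singleton] at h1
  rcases h1 with h1 | h1
  · exact h.uv h1
  · exact h.ru' h1.symm

theorem Conf.bd (h : Conf G u v p q r r' a b c d d') : b ≠ d := by
  intro e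
  have h1 : u ∈ G.inc d := by rw [← e, h.ib]; simp
  rw [h.id] at h1
  simp only [Finset.mem_insert, Finset.mem_singleton] at h1
  rcases h1 with h1 | h1
  · exact h.uv h1
  · exact h.ru h1.symm

theorem Conf.bd' (h : Conf G u v p q r r' a b c d d') : b ≠ d' := by
  intro e
  have h1 : u ∈ G.inc d' := by rw [← e, h.ib]; simp
  rw [h.id'] at h1
  simp only [Finset.mem_insert, Finset.mem_singleton] at h1
  rcases h1 with h1 | h1
  · exact h.uv h1
  · exact h.ru' h1.symm

theorem Conf.notu (h : Conf G u v p q r r' a b c d d') {e : E} (he : e ∈ G.D)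
    (hn : e ∉ ({a, b, c, d, d'} : Finset E)) : u ∉ G.inc e := by
  intro h1
  have : e ∈ G.D.filter (fun e => u ∈ G.inc e) := Finset.mem_filter.mpr ⟨he, h1⟩
  rw [h.hu] at this
  apply hn
  simp only [Finset.mem_insert, Finset.mem_singleton] at this ⊢
  tauto

theorem Conf.notv (h : Conf G u v p q r r' a b c d d') {e : E} (he : e ∈ G.D)
    (hn : e ∉ ({a, b, c, d, d'} : Finset E)) : v ∉ G.inc e := by
  intro h1
  have : e ∈ G.D.filter (fun e => v ∈ G.inc e) := Finset.mem_filter.mpr ⟨he, h1⟩
  rw [h.hv] at this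
  apply hn
  simp only [Finset.mem_insert, Finset.mem_singleton] at this ⊢
  tauto

theorem Conf.splitD (h : Conf G u v p q r r' a b c d d') (P : E → Prop) [DecidablePred P] :
    (G.D.filter P).card = ((G.D \ {a, b, c, d, d'}).filter P).card + (if P a then 1 else 0)
      + (if P b then 1 else 0) + (if P c then 1 else 0) + (if P d then 1 else 0)
      + (if P d' then 1 else 0) := by
  have h1 : G.D = insert a (insert b (insert c (insert d (insert d' (G.D \ {a, b, c, d, d'}))))) := by
    ext e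
    simp only [Finset.mem_insert, Finset.mem_sdiff, Finset.mem_singleton]
    constructor
    · intro he; by_cases h1 : e = a <;> by_cases h2 : e = b <;> by_cases h3 : e = c <;>
        by_cases h4 : e = d <;> by_cases h5 : e = d' <;> simp_all
    · rintro (rfl | rfl | rfl | rfl | rfl | h1)
      · exact h.aD
      · exact h.bD
      · exact h.cD
      · exact h.dD
      · exact h.dD'
      · exact h1.1
  have e1 := h.ab
  have e2 := h.ac
  have e3 := h.bc
  have e4 := h.cd
  have e5 := h.cd'
  have e6 := h.dd'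
  have e7 := h.ad
  have e8 := h.ad'
  have e9 := h.bd
  have e10 := h.bd'
  rw [Finset.card_filter, Finset.card_filter]
  conv_lhs => rw [h1]
  rw [Finset.sum_insert, Finset.sum_insert, Finset.sum_insert, Finset.sum_insert,
    Finset.sum_insert]
  · ring
  all_goals simp [e1, e2, e3, e4, e5, e6, e7, e8, e9, e10]

theorem Conf.splitD2 (h : Conf G u v p q r r' a b c d d') (P : E → Prop) [DecidablePred P] :
    ((G.D \ {c, d, d'}).filter P).card = ((G.D \ {a, b, c, d, d'}).filter P).card
      + (if P a then 1 else 0) + (if P b then 1 else 0) := by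
  have e1 := h.ab
  have e2 := h.ac
  have e3 := h.bc
  have e4 := h.cd
  have e5 := h.cd'
  have e6 := h.dd'
  have e7 := h.ad
  have e8 := h.ad'
  have e9 := h.bd
  have e10 := h.bd'
  have h1 : G.D \ {c, d, d'} = insert a (insert b (G.D \ {a, b, c, d, d'})) := by
    ext e
    simp only [Finset.mem_insert, Finset.mem_sdiff, Finset.mem_singleton]
    constructor
    · intro he; by_cases h1 : e = a <;> by_cases h2 : e = b <;> simp_all
    · rintro (rfl | rfl | h1)
      · exact ⟨h.aD, by simp [e2, e7, e8]⟩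
      · exact ⟨h.bD, by simp [e3, e9, e10]⟩
      · exact ⟨h1.1, by tauto⟩
  rw [Finset.card_filter, Finset.card_filter]
  conv_lhs => rw [h1]
  rw [Finset.sum_insert, Finset.sum_insert]
  · ring
  all_goals simp [e1]

theorem Conf.red_inc_a : (G.red u v p q r r' a b c d d').inc a = {p, r} := by
  simp [Gr.red]

theorem Conf.red_inc_b (h : Conf G u v p q r r' a b c d d') :
    (G.red u v p q r r' a b c d d').inc b = {q, r'} := by
  simp [Gr.red, h.ab.symm]

theorem Conf.red_inc {e : E} (ha : e ≠ a) (hb : e ≠ b) :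
    (G.red u v p q r r' a b c d d').inc e = G.inc e := by
  simp [Gr.red, ha, hb]

/-- degrees in the reduced graph -/
theorem Conf.deg_eq (h : Conf G u v p q r r' a b c d d') {K : Finset E} (hK : K ⊆ G.D)
    (h1 : a ∈ K ↔ d ∈ K) (h2 : b ∈ K ↔ d' ∈ K) {w : V} (hwu : w ≠ u) (hwv : w ≠ v) :
    ((K \ {c, d, d'}).filter (fun e => w ∈ (G.red u v p q r r' a b c d d').inc e)).card
      = (K.filter (fun e => w ∈ G.inc e)).card := by
  have e1 : K.filter (fun e => w ∈ G.inc e) = G.D.filter (fun e => e ∈ K ∧ w ∈ G.inc e) := by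
    ext e; simp only [Finset.mem_filter]
    constructor
    · rintro ⟨h1, h2⟩; exact ⟨hK h1, h1, h2⟩
    · rintro ⟨_, h1, h2⟩; exact ⟨h1, h2⟩
  have e2 : (K \ {c, d, d'}).filter (fun e => w ∈ (G.red u v p q r r' a b c d d').inc e)
      = (G.D \ {c, d, d'}).filter (fun e => e ∈ K ∧ w ∈ (G.red u v p q r r' a b c d d').inc e) := by
    ext e; simp only [Finset.mem_filter, Finset.mem_sdiff]
    constructor
    · rintro ⟨⟨h1, h2⟩, h3⟩; exact ⟨⟨hK h1, h2⟩, h1, h3⟩
    · rintro ⟨⟨_, h2⟩, h1, h3⟩; exact ⟨⟨h1, h2⟩, h3⟩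
  have e3 : (G.D \ {a, b, c, d, d'}).filter
        (fun e => e ∈ K ∧ w ∈ (G.red u v p q r r' a b c d d').inc e)
      = (G.D \ {a, b, c, d, d'}).filter (fun e => e ∈ K ∧ w ∈ G.inc e) := by
    apply Finset.filter_congr
    intro e he
    simp only [Finset.mem_sdiff, Finset.mem_insert, Finset.mem_singleton] at he
    push Not at he
    rw [Conf.red_inc he.2.1 he.2.2.1]
  rw [e1, e2, h.splitD, h.splitD2, e3, Conf.red_inc_a, h.red_inc_b, h.ia, h.ib, h.ic, h.id, h.id']
  have hpr := h.pr
  have hqr := h.qr'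
  simp only [Finset.mem_insert, Finset.mem_singleton, hwu, hwv, or_false, false_or, and_false,
    if_false]
  by_cases ha : a ∈ K <;> by_cases hb : b ∈ K
  · have hd : d ∈ K := h1.mp ha
    have hd' : d' ∈ K := h2.mp hb
    simp only [ha, hb, hd, hd', true_and]
    by_cases w1 : w = p <;> by_cases w2 : w = r <;> by_cases w3 : w = q <;>
      by_cases w4 : w = r' <;> simp_all
  · have hd : d ∈ K := h1.mp ha
    have hd' : d' ∉ K := fun h => hb (h2.mpr h)
    simp only [ha, hb, hd, hd', true_and, false_and]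
    by_cases w1 : w = p <;> by_cases w2 : w = r <;> simp_all
  · have hd : d ∉ K := fun h => ha (h1.mpr h)
    have hd' : d' ∈ K := h2.mp hb
    simp only [ha, hb, hd, hd', true_and, false_and]
    by_cases w3 : w = q <;>
      by_cases w4 : w = r' <;> simp_all
  · have hd : d ∉ K := fun h => ha (h1.mpr h)
    have hd' : d' ∉ K := fun h => hb (h2.mpr h)
    simp [ha, hb, hd, hd']

theorem Conf.cut_rest (h : Conf G u v p q r r' a b c d d') (hG : G.Cubic) {X Y : Finset V}
    (hXY : ∀ w, w ≠ u → w ≠ v → (w ∈ X ↔ w ∈ Y)) :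
    (G.D \ {a, b, c, d, d'}).filter (fun e => (G.inc e ∩ X).card = 1)
      = (G.D \ {a, b, c, d, d'}).filter (fun e => (G.inc e ∩ Y).card = 1) := by
  apply Finset.filter_congr
  intro e he
  have he' := Finset.mem_sdiff.mp he
  obtain ⟨x, y, hxy, hi, hx, hy⟩ := ends hG he'.1
  have h1 := h.notu he'.1 he'.2
  have h2 := h.notv he'.1 he'.2
  rw [hi] at h1 h2 ⊢
  simp only [Finset.mem_insert, Finset.mem_singleton, not_or] at h1 h2
  rw [inter_pair_card hxy, inter_pair_card hxy, hXY x (Ne.symm h1.1) (Ne.symm h2.1),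
    hXY y (Ne.symm h1.2) (Ne.symm h2.2)]

theorem Conf.red_bridge (h : Conf G u v p q r r' a b c d d') (hG : G.Cubic)
    (h3 : ∀ X ⊆ G.A, 2 ≤ X.card → 2 ≤ (G.A \ X).card → (G.cut X).card ≠ 3)
    {Y : Finset V} (hY : Y ⊆ G.A \ {u, v}) :
    ((G.red u v p q r r' a b c d d').cut Y).card ≠ 1 := by
  have hYA : Y ⊆ G.A := hY.trans Finset.sdiff_subset
  have huY : u ∉ Y := by
    intro h1; have := Finset.mem_sdiff.mp (hY h1); simp at this
  have hvY : v ∉ Y := by
    intro h1; have := Finset.mem_sdiff.mp (hY h1); simp at this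
  have hZA : insert u (insert v Y) ⊆ G.A := by
    intro w hw
    simp only [Finset.mem_insert] at hw
    rcases hw with rfl | rfl | hw
    · exact h.uA
    · exact h.vA
    · exact hYA hw
  have b1 := hG.bridge Y hYA
  have b2 := hG.bridge _ hZA
  have e1 : (G.cut Y).card = ((G.D \ {a, b, c, d, d'}).filter
      (fun e => (G.inc e ∩ Y).card = 1)).card + (if p ∈ Y then 1 else 0)
      + (if q ∈ Y then 1 else 0) + (if r ∈ Y then 1 else 0) + (if r' ∈ Y then 1 else 0) := by
    unfold Gr.cut
    rw [h.splitD, h.ia, h.ib, h.ic, h.id, h.id', ite_pair h.pu, ite_pair h.qu,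
      ite_pair h.uv, ite_pair h.vr, ite_pair h.vr']
    by_cases w1 : p ∈ Y <;> by_cases w2 : q ∈ Y <;> by_cases w3 : r ∈ Y <;>
      by_cases w4 : r' ∈ Y <;> simp [huY, hvY, w1, w2, w3, w4]
  have e2 : (G.cut (insert u (insert v Y))).card = ((G.D \ {a, b, c, d, d'}).filter
      (fun e => (G.inc e ∩ Y).card = 1)).card + (if p ∈ Y then 0 else 1)
      + (if q ∈ Y then 0 else 1) + (if r ∈ Y then 0 else 1) + (if r' ∈ Y then 0 else 1) := by
    unfold Gr.cut
    rw [h.splitD, h.ia, h.ib, h.ic, h.id, h.id', ite_pair h.pu, ite_pair h.qu,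
      ite_pair h.uv, ite_pair h.vr, ite_pair h.vr',
      h.cut_rest hG (X := insert u (insert v Y)) (Y := Y)
        (by intro w h1 h2; simp [h1, h2])]
    have hpu := h.pu
    have hpv := h.pv
    have hqu := h.qu
    have hqv := h.qv
    have hru := h.ru
    have hvr := h.vr.symm
    have hru' := h.ru'
    have hvr' := h.vr'.symm
    by_cases w1 : p ∈ Y <;> by_cases w2 : q ∈ Y <;> by_cases w3 : r ∈ Y <;>
      by_cases w4 : r' ∈ Y <;> simp [hpu, hpv, hqu, hqv, hru, hvr, hru', hvr', w1, w2, w3, w4]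
  have e3 : ((G.red u v p q r r' a b c d d').cut Y).card = ((G.D \ {a, b, c, d, d'}).filter
      (fun e => (G.inc e ∩ Y).card = 1)).card + (if (p ∈ Y ↔ r ∈ Y) then 0 else 1)
      + (if (q ∈ Y ↔ r' ∈ Y) then 0 else 1) := by
    unfold Gr.cut
    have e4 : (G.red u v p q r r' a b c d d').D = G.D \ {c, d, d'} := rfl
    rw [e4, h.splitD2, Conf.red_inc_a, h.red_inc_b, ite_pair h.pr, ite_pair h.qr']
    have e5 : (G.D \ {a, b, c, d, d'}).filter
        (fun e => ((G.red u v p q r r' a b c d d').inc e ∩ Y).card = 1)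
        = (G.D \ {a, b, c, d, d'}).filter (fun e => (G.inc e ∩ Y).card = 1) := by
      apply Finset.filter_congr
      intro e he
      simp only [Finset.mem_sdiff, Finset.mem_insert, Finset.mem_singleton] at he
      push Not at he
      rw [Conf.red_inc he.2.1 he.2.2.1]
    rw [e5]
  intro hone
  rw [hone] at e3
  have hcompl : 2 ≤ (G.A \ Y).card := by
    have : ({u, v} : Finset V) ⊆ G.A \ Y := by
      intro w hw
      simp only [Finset.mem_insert, Finset.mem_singleton] at hw
      rcases hw with rfl | rfl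
      · simp [h.uA, huY]
      · simp [h.vA, hvY]
    have := Finset.card_le_card this
    rwa [Finset.card_pair h.uv] at this
  have hbig : (p ∈ Y ∧ r ∈ Y) ∨ (q ∈ Y ∧ r' ∈ Y) → 2 ≤ Y.card := by
    rintro (⟨h1, h2⟩ | ⟨h1, h2⟩)
    · have : ({p, r} : Finset V) ⊆ Y := by
        intro w hw
        simp only [Finset.mem_insert, Finset.mem_singleton] at hw
        rcases hw with rfl | rfl <;> assumption
      have := Finset.card_le_card this
      rwa [Finset.card_pair h.pr] at this
    · have : ({q, r'} : Finset V) ⊆ Y := by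
        intro w hw
        simp only [Finset.mem_insert, Finset.mem_singleton] at hw
        rcases hw with rfl | rfl <;> assumption
      have := Finset.card_le_card this
      rwa [Finset.card_pair h.qr'] at this
  by_cases w1 : p ∈ Y <;> by_cases w2 : q ∈ Y <;> by_cases w3 : r ∈ Y <;> by_cases w4 : r' ∈ Y <;>
    simp only [w1, w2, w3, w4, if_true, if_false, iff_true, iff_false, not_true, not_false_iff] at e1 e2 e3 hbig <;>
    first
      | omega
      | (exact absurd (by omega) (h3 Y hYA (hbig (by simp)) hcompl))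

end

end Pool.Agent.Helper93.F5
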